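import Mathlib

/-!
# Separators or shallow minors

For every graph `H` with few vertices and edges, every graph either contains `H` as a minor with
branch sets of small radius or has small separators (for complete graphs `H`: Plotkin, Rao and
Smith).
-/

set_option autoImplicit false

namespace Pool.Agent.U514.MU

open Finset

variable {V W : Type*}

/-- `H` is a minor of `G` with branch sets of radius at most `d`: there are pairwise disjoint sets
`A a` of vertices of `G`, one for each vertex `a` of `H`, each with a centre from which all its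
vertices are reached by walks of length at most `d` inside of the set, and `G` has an edge between
`A a` and `A b` for each edge `a b` of `H`. -/
def HasMinor (G : SimpleGraph V) (H : SimpleGraph W) (d : ℕ) : Prop :=
  ∃ A : W → Set V, (∀ a b, a ≠ b → Disjoint (A a) (A b)) ∧
    (∀ a, ∃ c ∈ A a, ∀ x ∈ A a, ∃ p : G.Walk c x, p.length ≤ d ∧ ∀ y ∈ p.support, y ∈ A a) ∧
    ∀ a b, H.Adj a b → ∃ x ∈ A a, ∃ y ∈ A b, G.Adj x y

theorem HasMinor.mono {G : SimpleGraph V} {H : SimpleGraph W} {d d' : ℕ} (h : HasMinor G H d)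
    (hd : d ≤ d') : HasMinor G H d' := by
  obtain ⟨A, h1, h2, h3⟩ := h
  refine ⟨A, h1, fun a => ?_, h3⟩
  obtain ⟨c, hc, h4⟩ := h2 a
  refine ⟨c, hc, fun x hx => ?_⟩
  obtain ⟨p, hp, hp'⟩ := h4 x hx
  exact ⟨p, hp.trans hd, hp'⟩

section ball

open Classical in
/-- the vertices which are joined to `X` by a walk of length at most `n` through `Q` -/
noncomputable def ball (G : SimpleGraph V) (Q X : Finset V) : ℕ → Finset V
  | 0 => X
  | n + 1 => ball G Q X n ∪ Q.filter fun y => ∃ x ∈ ball G Q X n, G.Adj x y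

variable {G : SimpleGraph V} {Q X : Finset V}

lemma ball_sub (hX : X ⊆ Q) (n : ℕ) : ball G Q X n ⊆ Q := by
  classical
  induction n with
  | zero => exact hX
  | succ n ih =>
    rw [ball]
    exact union_subset ih (filter_subset _ _)

lemma ball_step (n : ℕ) : ball G Q X n ⊆ ball G Q X (n + 1) := by
  classical
  conv_rhs => rw [ball]
  exact subset_union_left

lemma ball_mono {m n : ℕ} (h : m ≤ n) : ball G Q X m ⊆ ball G Q X n := by
  induction n, h using Nat.le_induction with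
  | base => exact Subset.refl _
  | succ n _ ih => exact ih.trans (ball_step n)

lemma ball_adj {n : ℕ} {x y : V} (hx : x ∈ ball G Q X n) (hy : y ∈ Q) (h : G.Adj x y) :
    y ∈ ball G Q X (n + 1) := by
  classical
  rw [ball, mem_union, mem_filter]
  exact Or.inr ⟨hy, x, hx, h⟩

lemma ball_walk (hX : X ⊆ Q) (n : ℕ) : ∀ y ∈ ball G Q X n, ∃ x ∈ X, ∃ p : G.Walk x y,
    p.length ≤ n ∧ ∀ z ∈ p.support, z ∈ Q := by
  classical
  induction n with
  | zero =>
    intro y hy
    exact ⟨y, hy, .nil, le_refl _, by simpa using hX hy⟩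
  | succ n ih =>
    intro y hy
    rw [ball, mem_union, mem_filter] at hy
    rcases hy with hy | ⟨hy, x, hx, hxy⟩
    · obtain ⟨x, hx, p, hp, hp'⟩ := ih y hy
      exact ⟨x, hx, p, by omega, hp'⟩
    · obtain ⟨z, hz, p, hp, hp'⟩ := ih x hx
      refine ⟨z, hz, p.concat hxy, ?_, ?_⟩
      · rw [SimpleGraph.Walk.length_concat]
        omega
      · intro u hu
        rw [SimpleGraph.Walk.support_concat, List.mem_append, List.mem_singleton] at hu
        rcases hu with hu | hu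
        · exact hp' u hu
        · rw [hu]
          exact hy

lemma two_pow_le (ℓ t : ℕ) (hℓ : 0 < ℓ) : 2 ^ t * ℓ ^ (ℓ * t) ≤ (ℓ + 1) ^ (ℓ * t) := by
  have h1 : 2 * ℓ ^ ℓ ≤ (ℓ + 1) ^ ℓ := by
    have hR : (0 : ℝ) < ℓ := by exact_mod_cast hℓ
    have h2 : (1 : ℝ) + ℓ * (1 / ℓ) ≤ (1 + 1 / ℓ) ^ ℓ := by
      apply one_add_mul_le_pow
      have : (0 : ℝ) ≤ 1 / ℓ := by positivity
      linarith
    have h3 : (1 : ℝ) + ℓ * (1 / ℓ) = 2 := by
      field_simp
      norm_num
    rw [h3] at h2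
    have h4 : (2 : ℝ) * ℓ ^ ℓ ≤ (ℓ + 1) ^ ℓ := by
      calc (2 : ℝ) * ℓ ^ ℓ ≤ (1 + 1 / ℓ) ^ ℓ * ℓ ^ ℓ := by gcongr
        _ = ((1 + 1 / ℓ) * ℓ) ^ ℓ := (mul_pow _ _ _).symm
        _ = (ℓ + 1) ^ ℓ := by
          congr 1
          field_simp
    exact_mod_cast h4
  calc 2 ^ t * ℓ ^ (ℓ * t) = (2 * ℓ ^ ℓ) ^ t := by rw [mul_pow, pow_mul]
    _ ≤ ((ℓ + 1) ^ ℓ) ^ t := Nat.pow_le_pow_left h1 t
    _ = _ := (pow_mul _ _ _).symm

lemma growth [Fintype V] (ℓ t : ℕ) (hℓ : 0 < ℓ) (ht : 0 < t) (hV : Fintype.card V ≤ 2 ^ t)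
    (hX : X.Nonempty) :
    ∃ j < ℓ * t, ℓ * (ball G Q X (j + 1)).card ≤ (ℓ + 1) * (ball G Q X j).card := by
  by_contra hcon
  push Not at hcon
  have key : ∀ j ≤ ℓ * t, (ℓ + 1) ^ j * X.card ≤ ℓ ^ j * (ball G Q X j).card ∧
      (0 < j → (ℓ + 1) ^ j * X.card < ℓ ^ j * (ball G Q X j).card) := by
    intro j
    induction j with
    | zero => exact fun _ => ⟨by simp [ball], fun h => absurd h (lt_irrefl 0)⟩
    | succ j ih =>
      intro hj
      have h1 := (ih (by omega)).1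
      have h2 := hcon j (by omega)
      have h3 : (ℓ + 1) ^ (j + 1) * X.card < ℓ ^ (j + 1) * (ball G Q X (j + 1)).card := by
        calc (ℓ + 1) ^ (j + 1) * X.card = (ℓ + 1) * ((ℓ + 1) ^ j * X.card) := by ring
          _ ≤ (ℓ + 1) * (ℓ ^ j * (ball G Q X j).card) := Nat.mul_le_mul_left _ h1
          _ = ℓ ^ j * ((ℓ + 1) * (ball G Q X j).card) := by ring
          _ < ℓ ^ j * (ℓ * (ball G Q X (j + 1)).card) :=
              Nat.mul_lt_mul_of_pos_left h2 (by positivity)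
          _ = _ := by ring
      exact ⟨h3.le, fun _ => h3⟩
  have h1 := (key (ℓ * t) le_rfl).2 (by positivity)
  have h2 : (ball G Q X (ℓ * t)).card ≤ 2 ^ t := (card_le_univ _).trans hV
  have h3 := two_pow_le ℓ t hℓ
  have h4 : 1 ≤ X.card := hX.card_pos
  have h5 : (ℓ + 1) ^ (ℓ * t) * 1 ≤ (ℓ + 1) ^ (ℓ * t) * X.card := Nat.mul_le_mul_left _ h4
  have h6 : ℓ ^ (ℓ * t) * (ball G Q X (ℓ * t)).card ≤ ℓ ^ (ℓ * t) * 2 ^ t :=
    Nat.mul_le_mul_left _ h2
  have h7 : ℓ ^ (ℓ * t) * 2 ^ t = 2 ^ t * ℓ ^ (ℓ * t) := mul_comm _ _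
  omega

end ball

end Pool.Agent.U514.MU
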