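import Mathlib
import Pool.Agent.U514.MU.Minor

/-!
# Separators or shallow minors: the construction
-/

set_option autoImplicit false

namespace Pool.Agent.U514.MU

open Finset

variable {V W : Type*} [Fintype W]

open Classical in
/-- the state of the construction: `R` is finished, `S` is removed, `Q` is open, `A a` are the
branch sets, `∅` if `a` is not yet embedded -/
structure State (G : SimpleGraph V) (H : SimpleGraph W) (U : Finset V) (w : V → ℕ) (ℓ e : ℕ)
    (R S Q : Finset V) (A : W → Finset V) : Prop where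
  cover : ∀ v ∈ U, v ∈ R ∨ v ∈ S ∨ v ∈ Q ∨ ∃ a, v ∈ A a
  subR : R ⊆ U
  subQ : Q ⊆ U
  subA : ∀ a, A a ⊆ U
  disRQ : Disjoint R Q
  disRA : ∀ a, Disjoint R (A a)
  disAQ : ∀ a, Disjoint (A a) Q
  disA : ∀ a b, a ≠ b → Disjoint (A a) (A b)
  noedge : ∀ x ∈ R, ∀ y ∈ Q, ¬ G.Adj x y
  conn : ∀ a, (A a).Nonempty → ∃ c ∈ A a, ∀ x ∈ A a, ∃ p : G.Walk c x, p.length ≤ 2 * e ∧
    ∀ y ∈ p.support, y ∈ A a
  size : ∀ a, (A a).card ≤ 1 + H.degree a * (2 * e)
  adj : ∀ a b, H.Adj a b → (A a).Nonempty → (A b).Nonempty → ∃ x ∈ A a, ∃ y ∈ A b, G.Adj x y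
  small : ℓ * S.card ≤ R.card
  weight : 3 * ∑ v ∈ R, w v ≤ 2 * ∑ v ∈ U, w v

/-- a separation of `U` into two parts of weight at most two thirds -/
def Separation (G : SimpleGraph V) (U : Finset V) (w : V → ℕ) (S M₁ M₂ : Finset V) : Prop :=
  S ⊆ U ∧ M₁ ⊆ U ∧ M₂ ⊆ U ∧ Disjoint M₁ S ∧ Disjoint M₂ S ∧ Disjoint M₁ M₂ ∧
    (∀ v ∈ U, v ∈ S ∨ v ∈ M₁ ∨ v ∈ M₂) ∧ (∀ x ∈ M₁, ∀ y ∈ M₂, ¬ G.Adj x y) ∧
    3 * ∑ v ∈ M₁, w v ≤ 2 * ∑ v ∈ U, w v ∧ 3 * ∑ v ∈ M₂, w v ≤ 2 * ∑ v ∈ U, w v

variable {G : SimpleGraph V} {H : SimpleGraph W} {U : Finset V} {w : V → ℕ} {ℓ e : ℕ}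
  {R S Q : Finset V} {A : W → Finset V}

open Classical in
theorem State.final (h : State G H U w ℓ e R S Q A)
    (hQ : 3 * ∑ v ∈ Q, w v ≤ 2 * ∑ v ∈ U, w v) : ∃ S' M₁ M₂, Separation G U w S' M₁ M₂ ∧
      ℓ * S'.card ≤ U.card + ℓ * (Fintype.card W + 4 * e * H.edgeFinset.card) := by
  refine ⟨U \ (R ∪ Q), R, Q, ⟨sdiff_subset, h.subR, h.subQ, ?_, ?_, h.disRQ, ?_, h.noedge,
    h.weight, hQ⟩, ?_⟩
  · rw [disjoint_left]
    intro v hv hv'
    exact (mem_sdiff.1 hv').2 (mem_union_left _ hv)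
  · rw [disjoint_left]
    intro v hv hv'
    exact (mem_sdiff.1 hv').2 (mem_union_right _ hv)
  · intro v hv
    by_cases h1 : v ∈ R
    · exact Or.inr (Or.inl h1)
    · by_cases h2 : v ∈ Q
      · exact Or.inr (Or.inr h2)
      · refine Or.inl (mem_sdiff.2 ⟨hv, ?_⟩)
        rw [mem_union]
        tauto
  · have h1 : U \ (R ∪ Q) ⊆ S ∪ univ.biUnion A := by
      intro v hv
      rw [mem_sdiff, mem_union] at hv
      rw [mem_union, mem_biUnion]
      rcases h.cover v hv.1 with h1 | h1 | h1 | ⟨a, h1⟩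
      · exact absurd (Or.inl h1) hv.2
      · exact Or.inl h1
      · exact absurd (Or.inr h1) hv.2
      · exact Or.inr ⟨a, mem_univ _, h1⟩
    have h2 : (univ.biUnion A).card ≤ Fintype.card W + 4 * e * H.edgeFinset.card := by
      calc (univ.biUnion A).card ≤ ∑ a, (A a).card := card_biUnion_le
        _ ≤ ∑ a, (1 + H.degree a * (2 * e)) := sum_le_sum fun a _ => h.size a
        _ = Fintype.card W + 4 * e * H.edgeFinset.card := by
          rw [sum_add_distrib, ← sum_mul, H.sum_degrees_eq_twice_card_edges]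
          simp only [sum_const, card_univ, smul_eq_mul, mul_one]
          ring
    calc ℓ * (U \ (R ∪ Q)).card ≤ ℓ * (S.card + (univ.biUnion A).card) :=
          Nat.mul_le_mul_left _ ((card_le_card h1).trans (card_union_le _ _))
      _ = ℓ * S.card + ℓ * (univ.biUnion A).card := by ring
      _ ≤ U.card + ℓ * (Fintype.card W + 4 * e * H.edgeFinset.card) :=
          Nat.add_le_add (h.small.trans (card_le_card h.subR)) (Nat.mul_le_mul_left _ h2)

open Classical in
theorem State.drop (h : State G H U w ℓ e R S Q A)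
    (hQ : 2 * ∑ v ∈ U, w v < 3 * ∑ v ∈ Q, w v) (b : W)
    (hb : ∀ x ∈ A b, ∀ y ∈ Q, ¬ G.Adj x y) :
    State G H U w ℓ e (R ∪ A b) S Q (Function.update A b ∅) := by
  have hsub : ∀ a, Function.update A b ∅ a ⊆ A a := by
    intro a
    by_cases hab : a = b
    · subst hab
      rw [Function.update_self]
      exact empty_subset _
    · rw [Function.update_of_ne hab]
  have hne : ∀ a, (Function.update A b ∅ a).Nonempty → a ≠ b ∧ Function.update A b ∅ a = A a := by
    intro a ha
    by_cases hab : a = b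
    · subst hab
      rw [Function.update_self] at ha
      exact absurd ha (by simp)
    · exact ⟨hab, Function.update_of_ne hab _ _⟩
  constructor
  · intro v hv
    rcases h.cover v hv with h1 | h1 | h1 | ⟨a, h1⟩
    · exact Or.inl (mem_union_left _ h1)
    · exact Or.inr (Or.inl h1)
    · exact Or.inr (Or.inr (Or.inl h1))
    · by_cases hab : a = b
      · subst hab
        exact Or.inl (mem_union_right _ h1)
      · refine Or.inr (Or.inr (Or.inr ⟨a, ?_⟩))
        rw [Function.update_of_ne hab]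
        exact h1
  · exact union_subset h.subR (h.subA b)
  · exact h.subQ
  · exact fun a => (hsub a).trans (h.subA a)
  · exact disjoint_union_left.2 ⟨h.disRQ, h.disAQ b⟩
  · intro a
    by_cases hab : a = b
    · subst hab
      rw [Function.update_self]
      exact disjoint_empty_right _
    · rw [Function.update_of_ne hab]
      exact disjoint_union_left.2 ⟨h.disRA a, (h.disA a b hab).symm⟩
  · exact fun a => (h.disAQ a).mono_left (hsub a)
  · exact fun a c hac => (h.disA a c hac).mono (hsub a) (hsub c)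
  · intro x hx y hy
    rcases mem_union.1 hx with hx | hx
    · exact h.noedge x hx y hy
    · exact hb x hx y hy
  · intro a ha
    obtain ⟨-, h1⟩ := hne a ha
    rw [h1] at ha ⊢
    exact h.conn a ha
  · intro a
    exact (card_le_card (hsub a)).trans (h.size a)
  · intro a c hac ha hc
    obtain ⟨-, h1⟩ := hne a ha
    obtain ⟨-, h2⟩ := hne c hc
    rw [h1] at ha ⊢
    rw [h2] at hc ⊢
    exact h.adj a c hac ha hc
  · exact h.small.trans (card_le_card subset_union_left)
  · have h1 : ∑ v ∈ R ∪ A b, w v + ∑ v ∈ Q, w v ≤ ∑ v ∈ U, w v := by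
      rw [← sum_union (disjoint_union_left.2 ⟨h.disRQ, h.disAQ b⟩)]
      exact sum_le_sum_of_subset (union_subset (union_subset h.subR (h.subA b)) h.subQ)
    omega

open Classical in
theorem State.cut (h : State G H U w ℓ e R S Q A)
    (hQ : 2 * ∑ v ∈ U, w v < 3 * ∑ v ∈ Q, w v) (X : Finset V) (hX : X ⊆ Q) (j : ℕ)
    (hj : ℓ * (ball G Q X (j + 1)).card ≤ (ℓ + 1) * (ball G Q X j).card)
    (hw : 2 * ∑ v ∈ ball G Q X (j + 1), w v ≤ ∑ v ∈ Q, w v) :
    State G H U w ℓ e (R ∪ ball G Q X j) (S ∪ (ball G Q X (j + 1) \ ball G Q X j))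
      (Q \ ball G Q X (j + 1)) A := by
  have hb1 : ball G Q X j ⊆ Q := ball_sub hX j
  have hb2 : ball G Q X j ⊆ ball G Q X (j + 1) := ball_step j
  constructor
  · intro v hv
    rw [mem_union, mem_union, mem_sdiff, mem_sdiff]
    rcases h.cover v hv with h1 | h1 | h1 | h1 <;> tauto
  · exact union_subset h.subR (hb1.trans h.subQ)
  · exact sdiff_subset.trans h.subQ
  · exact h.subA
  · refine disjoint_union_left.2 ⟨h.disRQ.mono_right sdiff_subset, ?_⟩
    rw [disjoint_left]
    intro v hv hv'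
    exact (mem_sdiff.1 hv').2 (hb2 hv)
  · exact fun a => disjoint_union_left.2 ⟨h.disRA a, ((h.disAQ a).mono_right hb1).symm⟩
  · exact fun a => (h.disAQ a).mono_right sdiff_subset
  · exact h.disA
  · intro x hx y hy hxy
    rw [mem_sdiff] at hy
    rcases mem_union.1 hx with hx | hx
    · exact h.noedge x hx y hy.1 hxy
    · exact hy.2 (ball_adj hx hy.1 hxy)
  · exact h.conn
  · exact h.size
  · exact h.adj
  · rw [card_union_of_disjoint (h.disRQ.mono_right hb1)]
    have h1 := card_union_le S (ball G Q X (j + 1) \ ball G Q X j)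
    have h2 := card_sdiff_add_card_eq_card hb2
    have h3 := h.small
    have h4 : ℓ * (ball G Q X (j + 1) \ ball G Q X j).card ≤ (ball G Q X j).card := by
      rw [← h2] at hj
      nlinarith
    calc ℓ * (S ∪ (ball G Q X (j + 1) \ ball G Q X j)).card ≤
          ℓ * (S.card + (ball G Q X (j + 1) \ ball G Q X j).card) := Nat.mul_le_mul_left _ h1
      _ = ℓ * S.card + ℓ * (ball G Q X (j + 1) \ ball G Q X j).card := by ring
      _ ≤ _ := Nat.add_le_add h3 h4
  · rw [sum_union (h.disRQ.mono_right hb1)]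
    have h1 : ∑ v ∈ R, w v + ∑ v ∈ Q, w v ≤ ∑ v ∈ U, w v := by
      rw [← sum_union h.disRQ]
      exact sum_le_sum_of_subset (union_subset h.subR h.subQ)
    have h2 : ∑ v ∈ ball G Q X j, w v ≤ ∑ v ∈ ball G Q X (j + 1), w v :=
      sum_le_sum_of_subset hb2
    omega

open Classical in
theorem State.embed (h : State G H U w ℓ e R S Q A) (a₀ : W) (ha₀ : A a₀ = ∅) (v : V)
    (hv : v ∈ Q)
    (hb : ∀ b, H.Adj a₀ b → (A b).Nonempty → ∃ t ∈ Q, (∃ y ∈ A b, G.Adj t y) ∧
      ∃ p : G.Walk v t, p.length ≤ 2 * e ∧ ∀ z ∈ p.support, z ∈ Q) :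
    ∃ N : Finset V, v ∈ N ∧ State G H U w ℓ e R S (Q \ N) (Function.update A a₀ N) := by
  have hP : ∀ b, ∃ P : Finset V, P.card ≤ 2 * e ∧ P ⊆ Q ∧
      (∀ x ∈ P, ∃ p : G.Walk v x, p.length ≤ 2 * e ∧ ∀ y ∈ p.support, y = v ∨ y ∈ P) ∧
      (H.Adj a₀ b → (A b).Nonempty → ∃ x, (x = v ∨ x ∈ P) ∧ ∃ y ∈ A b, G.Adj x y) := by
    intro b
    by_cases hab : H.Adj a₀ b ∧ (A b).Nonempty
    · obtain ⟨t, ht, hty, p, hp, hp'⟩ := hb b hab.1 hab.2
      refine ⟨p.support.toFinset.erase v, ?_, ?_, ?_, ?_⟩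
      · have h1 : v ∈ p.support.toFinset := List.mem_toFinset.2 p.start_mem_support
        rw [card_erase_of_mem h1]
        have h2 := List.toFinset_card_le p.support
        rw [SimpleGraph.Walk.length_support] at h2
        omega
      · intro z hz
        exact hp' z (List.mem_toFinset.1 (mem_of_mem_erase hz))
      · intro x hx
        have hx' : x ∈ p.support := List.mem_toFinset.1 (mem_of_mem_erase hx)
        refine ⟨p.takeUntil x hx', (p.length_takeUntil_le_length hx').trans hp, fun y hy => ?_⟩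
        by_cases hyv : y = v
        · exact Or.inl hyv
        · exact Or.inr (mem_erase.2 ⟨hyv, List.mem_toFinset.2
            (p.support_takeUntil_subset_support hx' hy)⟩)
      · intro _ _
        refine ⟨t, ?_, hty⟩
        by_cases htv : t = v
        · exact Or.inl htv
        · exact Or.inr (mem_erase.2 ⟨htv, List.mem_toFinset.2 p.end_mem_support⟩)
    · exact ⟨∅, by simp, empty_subset _, by simp, fun h1 h2 => absurd ⟨h1, h2⟩ hab⟩
  choose P hP1 hP2 hP3 hP4 using hP
  obtain ⟨N, hN⟩ : ∃ N, N = insert v ((H.neighborFinset a₀).biUnion P) := ⟨_, rfl⟩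
  have hvN : v ∈ N := by rw [hN]; exact mem_insert_self _ _
  have hNmem : ∀ x, x ∈ N ↔ x = v ∨ ∃ b, H.Adj a₀ b ∧ x ∈ P b := by
    intro x
    rw [hN, mem_insert, mem_biUnion]
    simp only [SimpleGraph.mem_neighborFinset]
  have hNQ : N ⊆ Q := by
    intro x hx
    rcases (hNmem x).1 hx with h1 | ⟨b, -, h1⟩
    · rw [h1]; exact hv
    · exact hP2 b h1
  have hNc : N.card ≤ 1 + H.degree a₀ * (2 * e) := by
    rw [hN]
    refine (card_insert_le _ _).trans ?_
    have h1 : ((H.neighborFinset a₀).biUnion P).card ≤ H.degree a₀ * (2 * e) := by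
      refine card_biUnion_le.trans ((sum_le_sum fun b _ => hP1 b).trans ?_)
      rw [sum_const, smul_eq_mul, SimpleGraph.card_neighborFinset_eq_degree]
    omega
  refine ⟨N, hvN, ?_⟩
  have hup : ∀ a, a ≠ a₀ → Function.update A a₀ N a = A a := fun a ha =>
    Function.update_of_ne ha _ _
  have hup0 : Function.update A a₀ N a₀ = N := Function.update_self _ _ _
  have hAN : ∀ a, Disjoint (A a) N := fun a => (h.disAQ a).mono_right hNQ
  have hedge : ∀ b, H.Adj a₀ b → (A b).Nonempty → ∃ x ∈ N, ∃ y ∈ A b, G.Adj x y := by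
    intro b hab hbn
    obtain ⟨x, hx, hxy⟩ := hP4 b hab hbn
    refine ⟨x, (hNmem x).2 ?_, hxy⟩
    rcases hx with hx | hx
    · exact Or.inl hx
    · exact Or.inr ⟨b, hab, hx⟩
  constructor
  · intro u hu
    rcases h.cover u hu with h1 | h1 | h1 | ⟨a, h1⟩
    · exact Or.inl h1
    · exact Or.inr (Or.inl h1)
    · by_cases huN : u ∈ N
      · exact Or.inr (Or.inr (Or.inr ⟨a₀, by rw [hup0]; exact huN⟩))
      · exact Or.inr (Or.inr (Or.inl (mem_sdiff.2 ⟨h1, huN⟩)))
    · refine Or.inr (Or.inr (Or.inr ⟨a, ?_⟩))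
      have hne : a ≠ a₀ := by
        rintro rfl
        rw [ha₀] at h1
        exact absurd h1 (notMem_empty _)
      rw [hup a hne]
      exact h1
  · exact h.subR
  · exact sdiff_subset.trans h.subQ
  · intro a
    by_cases ha : a = a₀
    · subst ha
      rw [hup0]
      exact hNQ.trans h.subQ
    · rw [hup a ha]
      exact h.subA a
  · exact h.disRQ.mono_right sdiff_subset
  · intro a
    by_cases ha : a = a₀
    · subst ha
      rw [hup0]
      exact h.disRQ.mono_right hNQ
    · rw [hup a ha]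
      exact h.disRA a
  · intro a
    by_cases ha : a = a₀
    · subst ha
      rw [hup0]
      exact disjoint_sdiff
    · rw [hup a ha]
      exact (h.disAQ a).mono_right sdiff_subset
  · intro a b hab
    by_cases ha : a = a₀
    · subst ha
      rw [hup0, hup b (Ne.symm hab)]
      exact (hAN b).symm
    · rw [hup a ha]
      by_cases hb0 : b = a₀
      · subst hb0
        rw [hup0]
        exact hAN a
      · rw [hup b hb0]
        exact h.disA a b hab
  · intro x hx y hy
    exact h.noedge x hx y (mem_sdiff.1 hy).1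
  · intro a ha
    by_cases haa : a = a₀
    · subst haa
      rw [hup0]
      refine ⟨v, hvN, fun x hx => ?_⟩
      rcases (hNmem x).1 hx with h1 | ⟨b, hab, h1⟩
      · subst h1
        exact ⟨.nil, Nat.zero_le _, by simpa using hvN⟩
      · obtain ⟨p, hp, hp'⟩ := hP3 b x h1
        refine ⟨p, hp, fun y hy => (hNmem y).2 ?_⟩
        rcases hp' y hy with h2 | h2
        · exact Or.inl h2
        · exact Or.inr ⟨b, hab, h2⟩
    · rw [hup a haa] at ha ⊢
      exact h.conn a ha
  · intro a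
    by_cases haa : a = a₀
    · subst haa
      rw [hup0]
      exact hNc
    · rw [hup a haa]
      exact h.size a
  · intro a b hab ha hb'
    by_cases haa : a = a₀
    · subst haa
      have hba : b ≠ a := hab.ne.symm
      rw [hup b hba] at hb' ⊢
      rw [hup0]
      exact hedge b hab hb'
    · rw [hup a haa] at ha ⊢
      by_cases hbb : b = a₀
      · subst hbb
        rw [hup0]
        obtain ⟨x, hx, y, hy, hxy⟩ := hedge a hab.symm ha
        exact ⟨y, hy, x, hx, hxy.symm⟩
      · rw [hup b hbb] at hb' ⊢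
        exact h.adj a b hab ha hb'
  · exact h.small
  · exact h.weight

variable [Fintype V]

open Classical in
theorem exists_sep_aux {t : ℕ} (hℓ : 0 < ℓ) (ht : 0 < t) (hV : Fintype.card V ≤ 2 ^ t)
    (hno : ¬ HasMinor G H (2 * (ℓ * t))) (U : Finset V) (w : V → ℕ) :
    ∀ (n : ℕ) (R S Q : Finset V) (A : W → Finset V), State G H U w ℓ (ℓ * t) R S Q A →
      (Fintype.card W + 1) * Q.card + (univ.filter fun a => (A a).Nonempty).card = n →
      ∃ S' M₁ M₂, Separation G U w S' M₁ M₂ ∧
        ℓ * S'.card ≤ U.card + ℓ * (Fintype.card W + 4 * (ℓ * t) * H.edgeFinset.card) := by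
  intro n
  induction n using Nat.strong_induction_on with
  | _ n ih =>
  intro R S Q A h hn
  by_cases hQ : 3 * ∑ v ∈ Q, w v ≤ 2 * ∑ v ∈ U, w v
  · exact h.final hQ
  push Not at hQ
  have hW : ∃ a₀, A a₀ = ∅ := by
    by_contra hcon
    push Not at hcon
    refine hno ⟨fun a => (A a : Set V), fun a b hab => ?_, fun a => ?_, fun a b hab => ?_⟩
    · rw [Finset.disjoint_coe]
      exact h.disA a b hab
    · obtain ⟨c, hc, h1⟩ := h.conn a (hcon a)
      exact ⟨c, hc, h1⟩
    · exact h.adj a b hab (hcon a) (hcon b)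
  obtain ⟨a₀, ha₀⟩ := hW
  -- a branch set without neighbours in `Q`
  by_cases hdrop : ∃ b, H.Adj a₀ b ∧ (A b).Nonempty ∧ ∀ x ∈ A b, ∀ y ∈ Q, ¬ G.Adj x y
  · obtain ⟨b, -, hbn, hb⟩ := hdrop
    refine ih _ ?_ _ _ _ _ (h.drop hQ b hb) rfl
    rw [← hn]
    apply Nat.add_lt_add_left
    apply card_lt_card
    refine ⟨fun a ha => ?_, fun hsub => ?_⟩
    · rw [mem_filter] at ha ⊢
      refine ⟨mem_univ _, ?_⟩
      by_cases hab : a = b
      · subst hab
        exact hbn
      · have := ha.2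
        rwa [Function.update_of_ne hab] at this
    · have h1 := hsub (mem_filter.2 ⟨mem_univ b, hbn⟩)
      rw [mem_filter, Function.update_self] at h1
      exact absurd h1.2 (by simp)
  push Not at hdrop
  have hQne : Q.Nonempty := by
    rw [nonempty_iff_ne_empty]
    rintro rfl
    simp at hQ
  obtain ⟨v, hv⟩ := hQne
  obtain ⟨T, hT⟩ : ∃ T : W → Finset V, ∀ b, T b = Q.filter fun y => ∃ x ∈ A b, G.Adj x y :=
    ⟨_, fun _ => rfl⟩
  have hTQ : ∀ b, T b ⊆ Q := fun b => by rw [hT]; exact filter_subset _ _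
  have hvQ : ({v} : Finset V) ⊆ Q := singleton_subset_iff.2 hv
  by_cases hmeet : ∀ b, H.Adj a₀ b → (A b).Nonempty →
      ¬ Disjoint (ball G Q {v} (ℓ * t)) (ball G Q (T b) (ℓ * t))
  · obtain ⟨N, hvN, hN⟩ := h.embed a₀ ha₀ v hv (fun b hab hbn => by
      obtain ⟨z, hz1, hz2⟩ := not_disjoint_iff.1 (hmeet b hab hbn)
      obtain ⟨x, hx, p, hp, hp'⟩ := ball_walk hvQ _ z hz1
      obtain ⟨y, hy, q, hq, hq'⟩ := ball_walk (hTQ b) _ z hz2
      rw [mem_singleton] at hx
      subst hx
      have hy' := hy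
      rw [hT, mem_filter] at hy'
      obtain ⟨u, hu, huy⟩ := hy'.2
      refine ⟨y, hTQ b hy, ⟨u, hu, huy.symm⟩, p.append q.reverse, ?_, fun z' hz' => ?_⟩
      · rw [SimpleGraph.Walk.length_append, SimpleGraph.Walk.length_reverse]
        omega
      · rw [SimpleGraph.Walk.mem_support_append_iff, SimpleGraph.Walk.support_reverse,
          List.mem_reverse] at hz'
        rcases hz' with hz' | hz'
        · exact hp' z' hz'
        · exact hq' z' hz')
    refine ih _ ?_ _ _ _ _ hN rfl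
    rw [← hn]
    have h1 : (Q \ N).card + 1 ≤ Q.card := by
      apply Nat.succ_le_of_lt
      apply card_lt_card
      exact ⟨sdiff_subset, fun hs => (mem_sdiff.1 (hs hv)).2 hvN⟩
    have h2 : (univ.filter fun a => (Function.update A a₀ N a).Nonempty).card ≤
        (univ.filter fun a => (A a).Nonempty).card + 1 := by
      refine (card_le_card (t := insert a₀ (univ.filter fun a => (A a).Nonempty)) ?_).trans
        (card_insert_le _ _)
      intro a ha
      rw [mem_insert, mem_filter]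
      by_cases haa : a = a₀
      · exact Or.inl haa
      · right
        rw [mem_filter, Function.update_of_ne haa] at ha
        exact ha
    have h3 : 0 < Fintype.card W := Fintype.card_pos_iff.2 ⟨a₀⟩
    have h4 : (Fintype.card W + 1) * ((Q \ N).card + 1) ≤ (Fintype.card W + 1) * Q.card :=
      Nat.mul_le_mul_left _ h1
    rw [mul_add, mul_one] at h4
    omega
  · push Not at hmeet
    obtain ⟨b, hab, hbn, hdis⟩ := hmeet
    have hTne : (T b).Nonempty := by
      obtain ⟨x, hx, y, hy, hxy⟩ := hdrop b hab hbn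
      exact ⟨y, by rw [hT, mem_filter]; exact ⟨hy, x, hx, hxy⟩⟩
    obtain ⟨j₁, hj1, hg1⟩ := growth (G := G) (Q := Q) ℓ t hℓ ht hV (singleton_nonempty v)
    obtain ⟨j₂, hj2, hg2⟩ := growth (G := G) (Q := Q) ℓ t hℓ ht hV hTne
    have hdis' : Disjoint (ball G Q {v} (j₁ + 1)) (ball G Q (T b) (j₂ + 1)) :=
      hdis.mono (ball_mono (by omega)) (ball_mono (by omega))
    have hsum : ∑ x ∈ ball G Q {v} (j₁ + 1), w x + ∑ x ∈ ball G Q (T b) (j₂ + 1), w x ≤
        ∑ x ∈ Q, w x := by
      rw [← sum_union hdis']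
      exact sum_le_sum_of_subset (union_subset (ball_sub hvQ _) (ball_sub (hTQ b) _))
    have hcut : ∀ (X : Finset V), X ⊆ Q → X.Nonempty → ∀ j,
        (Q \ ball G Q X (j + 1)).card < Q.card := by
      intro X hX hXn j
      obtain ⟨x, hx⟩ := hXn
      apply card_lt_card
      exact ⟨sdiff_subset, fun hs => (mem_sdiff.1 (hs (hX hx))).2
        (ball_mono (Nat.zero_le _) hx)⟩
    rcases le_total (∑ x ∈ ball G Q {v} (j₁ + 1), w x) (∑ x ∈ ball G Q (T b) (j₂ + 1), w x)
      with hle | hle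
    · refine ih _ ?_ _ _ _ _ (h.cut hQ {v} hvQ j₁ hg1 (by omega)) rfl
      rw [← hn]
      exact Nat.add_lt_add_right (Nat.mul_lt_mul_of_pos_left
        (hcut _ hvQ (singleton_nonempty v) j₁) (Nat.succ_pos _)) _
    · refine ih _ ?_ _ _ _ _ (h.cut hQ (T b) (hTQ b) j₂ hg2 (by omega)) rfl
      rw [← hn]
      exact Nat.add_lt_add_right (Nat.mul_lt_mul_of_pos_left
        (hcut _ (hTQ b) hTne j₂) (Nat.succ_pos _)) _

/-- **Separators or shallow minors.** If `G` has at most `2 ^ t` vertices and does not contain `H` as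
a minor with branch sets of radius at most `2 ℓ t`, then every set `U` of vertices has a separation
into parts of weight at most two thirds by at most `|U| / ℓ + |V(H)| + 4 ℓ t |E(H)|` vertices. -/
theorem exists_sep {t : ℕ} (hℓ : 0 < ℓ) (ht : 0 < t) (hV : Fintype.card V ≤ 2 ^ t)
    (hno : ¬ HasMinor G H (2 * (ℓ * t))) (U : Finset V) (w : V → ℕ) :
    ∃ S' M₁ M₂, Separation G U w S' M₁ M₂ ∧
      ℓ * S'.card ≤ U.card + ℓ * (Fintype.card W + 4 * (ℓ * t) * H.edgeSet.ncard) := by
  classical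
  have h0 : State G H U w ℓ (ℓ * t) ∅ ∅ U (fun _ => ∅) := by
    constructor
    · exact fun v hv => Or.inr (Or.inr (Or.inl hv))
    · exact empty_subset _
    · exact Subset.refl _
    · exact fun _ => empty_subset _
    · exact disjoint_empty_left _
    · exact fun _ => disjoint_empty_left _
    · exact fun _ => disjoint_empty_left _
    · exact fun _ _ _ => disjoint_empty_left _
    · exact fun x hx => absurd hx (notMem_empty _)
    · exact fun a ha => absurd ha (by simp)
    · exact fun a => by simp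
    · exact fun a b _ ha => absurd ha (by simp)
    · simp
    · simp
  obtain ⟨S', M₁, M₂, h1, h2⟩ := exists_sep_aux hℓ ht hV hno U w _ _ _ _ _ h0 rfl
  refine ⟨S', M₁, M₂, h1, ?_⟩
  have h3 : H.edgeSet.ncard = H.edgeFinset.card := by
    rw [Set.ncard_eq_toFinset_card']
    congr 1
  rw [h3]
  convert h2 using 5

end Pool.Agent.U514.MU
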