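import Mathlib
import Pool.Agent.U514.MU.Sep

/-!
# Separators of order the square root
-/

set_option autoImplicit false

namespace Pool.Agent.U514.MU

open Finset

variable {V W : Type*} [Fintype V] [Fintype W]

/-- every set `U` of vertices has for every weight a separation into parts of weight at most two
thirds by at most `√(A |U|)` vertices -/
def HasSeparators (G : SimpleGraph V) (A : ℕ) : Prop :=
  ∀ (U : Finset V) (w : V → ℕ), ∃ S M₁ M₂, Separation G U w S M₁ M₂ ∧ S.card ^ 2 ≤ A * U.card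

/-- **A graph without `H` as a shallow minor has small separators.** -/
theorem hasSeparators {G : SimpleGraph V} {H : SimpleGraph W} {M t : ℕ} (hM : 0 < M) (ht : 0 < t)
    (hV : Fintype.card V ≤ 2 ^ t) (hW : Fintype.card W ≤ M) (hE : H.edgeSet.ncard ≤ M)
    (hno : ¬ HasMinor G H (2 * t * Nat.sqrt (Fintype.card V / (M * t)))) :
    HasSeparators G (36 * (M * t)) := by
  intro U w
  obtain ⟨D, hD⟩ : ∃ D, D = M * t := ⟨_, rfl⟩
  have hD0 : 0 < D := by rw [hD]; positivity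
  rw [← hD] at hno ⊢
  by_cases hU : U.card ≤ 36 * D
  · refine ⟨U, ∅, ∅, ⟨Subset.refl _, empty_subset _, empty_subset _, disjoint_empty_left _,
      disjoint_empty_left _, disjoint_empty_left _, fun v hv => Or.inl hv, ?_, ?_, ?_⟩, ?_⟩
    · exact fun x hx => absurd hx (notMem_empty _)
    · simp
    · simp
    · rw [sq]
      exact Nat.mul_le_mul_right _ hU
  push Not at hU
  obtain ⟨x, hx⟩ : ∃ x, x = U.card / D := ⟨_, rfl⟩
  obtain ⟨ℓ, hℓ⟩ : ∃ ℓ, ℓ = Nat.sqrt x := ⟨_, rfl⟩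
  have hx36 : 36 ≤ x := by
    rw [hx, Nat.le_div_iff_mul_le hD0]
    exact hU.le
  have hℓ6 : 6 ≤ ℓ := by
    rw [hℓ]
    exact Nat.le_sqrt.2 (by omega)
  have hxu : x * D ≤ U.card := by rw [hx]; exact Nat.div_mul_le_self _ _
  have hux : U.card < (x + 1) * D := by
    rw [hx]
    have := Nat.lt_succ_iff.2 (le_refl (U.card / D))
    exact (Nat.div_lt_iff_lt_mul hD0).1 this
  have h1 : ℓ * ℓ ≤ x := by rw [hℓ]; exact Nat.sqrt_le _
  have h2 : x < (ℓ + 1) * (ℓ + 1) := by rw [hℓ]; exact Nat.lt_succ_sqrt _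
  have h3 : ℓ * ℓ * D ≤ U.card := (Nat.mul_le_mul_right _ h1).trans hxu
  have h4 : U.card ≤ (ℓ + 1) * (ℓ + 1) * D := hux.le.trans (Nat.mul_le_mul_right _ h2)
  have hno' : ¬ HasMinor G H (2 * (ℓ * t)) := by
    intro h
    refine hno (h.mono ?_)
    rw [hℓ, mul_comm _ t, ← mul_assoc]
    apply Nat.mul_le_mul_left
    apply Nat.sqrt_le_sqrt
    rw [hx]
    exact Nat.div_le_div_right (card_le_univ _)
  obtain ⟨S, M₁, M₂, hS, hSc⟩ := exists_sep (by omega) ht hV hno' U w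
  refine ⟨S, M₁, M₂, hS, ?_⟩
  have h5 : ℓ * S.card ≤ U.card + ℓ * (D + 4 * ℓ * D) := by
    refine hSc.trans (Nat.add_le_add_left (Nat.mul_le_mul_left _ ?_) _)
    calc Fintype.card W + 4 * (ℓ * t) * H.edgeSet.ncard ≤ M * t + 4 * (ℓ * t) * M := by
          refine Nat.add_le_add (hW.trans (Nat.le_mul_of_pos_right _ ht)) ?_
          exact Nat.mul_le_mul_left _ hE
      _ = D + 4 * ℓ * D := by rw [hD]; ring
  obtain ⟨u, hu⟩ : ∃ u : ℝ, u = U.card := ⟨_, rfl⟩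
  obtain ⟨y, hy⟩ : ∃ y : ℝ, y = √((D : ℝ) * u) := ⟨_, rfl⟩
  have hD0' : (0 : ℝ) < D := by exact_mod_cast hD0
  have hℓ0 : (6 : ℝ) ≤ ℓ := by exact_mod_cast hℓ6
  have hu0 : 0 ≤ u := by rw [hu]; positivity
  have hy0 : 0 ≤ y := by rw [hy]; exact Real.sqrt_nonneg _
  have hy2 : y ^ 2 = D * u := by rw [hy]; exact Real.sq_sqrt (by positivity)
  have h3' : (ℓ : ℝ) * ℓ * D ≤ u := by rw [hu]; exact_mod_cast h3
  have h4' : u ≤ ((ℓ : ℝ) + 1) * (ℓ + 1) * D := by rw [hu]; exact_mod_cast h4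
  have e1 : (ℓ : ℝ) * D ≤ y := by
    apply le_of_sq_le_sq _ hy0
    rw [hy2]
    calc ((ℓ : ℝ) * D) ^ 2 = D * (ℓ * ℓ * D) := by ring
      _ ≤ D * u := mul_le_mul_of_nonneg_left h3' hD0'.le
  have e2 : u ≤ (ℓ + 1) * y := by
    apply le_of_sq_le_sq _ (by positivity)
    rw [mul_pow, hy2]
    calc u ^ 2 = u * u := by ring
      _ ≤ u * (((ℓ : ℝ) + 1) * (ℓ + 1) * D) := mul_le_mul_of_nonneg_left h4' hu0
      _ = _ := by ring
  have e3 : (ℓ : ℝ) * S.card ≤ 6 * ℓ * y := by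
    have h6 : ((ℓ : ℝ) * S.card) ≤ u + ℓ * (D + 4 * ℓ * D) := by rw [hu]; exact_mod_cast h5
    have h7 : (ℓ : ℝ) * (D + 4 * ℓ * D) = ℓ * D + 4 * ℓ * (ℓ * D) := by ring
    have h8 : 4 * (ℓ : ℝ) * (ℓ * D) ≤ 4 * ℓ * y := mul_le_mul_of_nonneg_left e1 (by positivity)
    nlinarith
  have e4 : (S.card : ℝ) ≤ 6 * y := by
    have : (ℓ : ℝ) * S.card ≤ ℓ * (6 * y) := by linarith
    exact le_of_mul_le_mul_left this (by linarith)
  have e5 : ((S.card : ℝ)) ^ 2 ≤ 36 * (D * u) := by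
    calc (S.card : ℝ) ^ 2 ≤ (6 * y) ^ 2 := pow_le_pow_left₀ (Nat.cast_nonneg _) e4 2
      _ = 36 * (D * u) := by rw [mul_pow, hy2]; norm_num
  rw [hu] at e5
  have e6 : S.card ^ 2 ≤ 36 * (D * U.card) := by exact_mod_cast e5
  calc S.card ^ 2 ≤ 36 * (D * U.card) := e6
    _ = _ := by ring

/-- `G` contains every graph with at most `M` vertices and at most `M` edges as a minor with branch
sets of radius at most `d` -/
def Universal (G : SimpleGraph V) (M d : ℕ) : Prop :=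
  ∀ (W : Type) [Fintype W] (H : SimpleGraph W), Fintype.card W ≤ M → H.edgeSet.ncard ≤ M →
    HasMinor G H d

lemma depth_le {M t s g d : ℕ} (hM : 0 < M) (h : 4 * t * g ≤ M * d ^ 2) (hs : s ≤ g) :
    2 * t * Nat.sqrt (s / (M * t)) ≤ d := by
  obtain ⟨u, hu⟩ : ∃ u, u = Nat.sqrt (s / (M * t)) := ⟨_, rfl⟩
  rw [← hu]
  have h1 : u * u ≤ s / (M * t) := by rw [hu]; exact Nat.sqrt_le _
  have h2 : u * u * (M * t) ≤ g :=
    ((Nat.mul_le_mul_right _ h1).trans (Nat.div_mul_le_self _ _)).trans hs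
  have h3 : M * (2 * t * u) ^ 2 ≤ M * d ^ 2 := by
    calc M * (2 * t * u) ^ 2 = 4 * t * (u * u * (M * t)) := by ring
      _ ≤ 4 * t * g := Nat.mul_le_mul_left _ h2
      _ ≤ M * d ^ 2 := h
  have h4 := Nat.le_of_mul_le_mul_left h3 hM
  exact (Nat.pow_le_pow_iff_left (by norm_num)).1 h4

/-- **A graph which is not universal has small separators.** -/
theorem separators_of_not_universal {G : SimpleGraph V} {M t g d : ℕ} (hM : 0 < M) (ht : 0 < t)
    (hg : Fintype.card V ≤ g) (hgt : g ≤ 2 ^ t) (hd : 4 * t * g ≤ M * d ^ 2)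
    (hno : ¬ Universal G M d) : HasSeparators G (36 * (M * t)) := by
  unfold Universal at hno
  push Not at hno
  obtain ⟨W, _, H, hW, hE, hH⟩ := hno
  exact hasSeparators hM ht (hg.trans hgt) hW hE (fun h => hH (h.mono (depth_le hM hd hg)))

end Pool.Agent.U514.MU
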