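import Mathlib
import Pool.Agent.U514.MU.Div
import Pool.Agent.U514.PD.ApspCor

/-!
# All-pairs shortest paths: universality of the graph of gates
-/

set_option autoImplicit false

open Finset

namespace Pool.Agent.U514.MU

open Pool.Agent.Y631.Tr
open Pool.Agent.H537R2.Apsp (Graph)
open Pool.Agent.U514.PD (gateGraph Divided base base_le base_pos apsp_det3 log_small
  reads_le_of_arity)
open Pool.Agent.H537R2.Apsr

/-- The division of a circuit with small separators. -/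
theorem divided_of_sep {ι ω α : Type} (C : Net ι ω α) {A r g a T s : ℕ} (hA : 0 < A)
    (h : HasSeparators (gateGraph C) A) (hr : C.reads ≤ r) (hg : C.size ≤ g) (ha : 0 < a)
    (hT0 : 0 < T) (hT : 5 * r ≤ T) (hs : s = Nat.sqrt (20 * a * (A * g) / T)) :
    Divided C (5000 * (5001 * A + s)) (4 * a) (T / a + 1) := by
  obtain ⟨L, h1, h2, h3⟩ := division hA h C.readsAt (5001 * A + s) (4 * a) (by omega) (by omega)
  refine ⟨L, ?_, h2, ?_⟩
  · intro p hp
    obtain ⟨h4, h5, h6⟩ := h1 p hp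
    refine ⟨?_, h5, h6⟩
    intro h g hhg hg
    have hne : h ≠ g := by
      obtain ⟨a, ha⟩ := hhg
      exact (C.acyclic g a h ha).ne
    exact h4 g hg h ((SimpleGraph.fromRel_adj _ _ _).2 ⟨hne.symm, Or.inr hhg⟩)
  obtain ⟨q, hq⟩ : ∃ q, q = 5001 * A + s := ⟨_, rfl⟩
  rw [← hq] at h3
  rw [Fintype.card_fin] at h3
  have hreads : C.reads = ∑ g, C.readsAt g := rfl
  rw [← hreads] at h3
  have h4 : 20 * a * (A * g) ≤ q ^ 2 * T := by
    have h5 : 20 * a * (A * g) / T < (s + 1) * (s + 1) := by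
      rw [hs]; exact Nat.lt_succ_sqrt _
    have h6 : 20 * a * (A * g) < (s + 1) * (s + 1) * T := (Nat.div_lt_iff_lt_mul hT0).1 h5
    refine h6.le.trans (Nat.mul_le_mul_right _ ?_)
    rw [sq]
    exact Nat.mul_le_mul (by omega) (by omega)
  have hq0 : 0 < q := by omega
  have h6 : (L.length * (4 * a)) * q ^ 2 ≤ (4 * T + 4 * a) * q ^ 2 := by
    calc (L.length * (4 * a)) * q ^ 2 = L.length * (q ^ 2 * (4 * a)) := by ring
      _ ≤ 10 * (4 * a * (A * C.size) + q ^ 2 * C.reads) + q ^ 2 * (4 * a) := h3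
      _ ≤ 10 * (4 * a * (A * g) + q ^ 2 * r) + q ^ 2 * (4 * a) := by
          apply Nat.add_le_add_right
          apply Nat.mul_le_mul_left
          exact Nat.add_le_add (Nat.mul_le_mul_left _ (Nat.mul_le_mul_left _ hg))
            (Nat.mul_le_mul_left _ hr)
      _ = 2 * (20 * a * (A * g)) + 2 * (q ^ 2 * (5 * r)) + q ^ 2 * (4 * a) := by ring
      _ ≤ 2 * (q ^ 2 * T) + 2 * (q ^ 2 * T) + q ^ 2 * (4 * a) := by
          have := Nat.mul_le_mul_left (q ^ 2) hT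
          omega
      _ = _ := by ring
  have h7 : L.length * (4 * a) ≤ 4 * T + 4 * a := Nat.le_of_mul_le_mul_right h6 (by positivity)
  have h8 : a * L.length ≤ T + a := by
    have : L.length * (4 * a) = 4 * (a * L.length) := by ring
    omega
  have h9 : L.length ≤ (T + a) / a := by
    rw [Nat.le_div_iff_mul_le ha, mul_comm]
    exact h8
  rwa [Nat.add_div_right _ ha] at h9

/-- The numbers. -/
theorem numbers {N L a b r g T q s M A : ℕ} (hN : 0 < N) (hL : 1 ≤ L) (haN : a ≤ N ^ 2)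
    (hb : 1 ≤ b) (hM : 1 ≤ M) (hA : A ≤ 252 * (M * L))
    (hT : T = 5 * r + N ^ 2) (hs : s ^ 2 * T ≤ 20 * a * (A * g)) (hq : q = 5001 * A + s)
    (hcon : 2 ^ 180 * (M * b ^ 2 * ((r + N ^ 2) * (g + N ^ 2)) * L ^ 21) ≤ N ^ 6) :
    2 ^ 68 * (T * (2500 * b * q + L) * L ^ 10) ≤ N ^ 4 := by
  have hN2 : 0 < N ^ 2 := by positivity
  have hT5 : T ≤ 5 * (r + N ^ 2) := by omega
  have hb2 : b ≤ b ^ 2 := by nlinarith
  have hL2 : L ^ 11 ≤ L ^ 21 := Nat.pow_le_pow_right hL (by norm_num)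
  obtain ⟨X, hX⟩ : ∃ X, X = M * b ^ 2 * ((r + N ^ 2) * (g + N ^ 2)) * L ^ 21 := ⟨_, rfl⟩
  rw [← hX] at hcon
  -- the three parts
  have p1 : 4 * (2 ^ 68 * (T * (2500 * b * (5001 * A)) * L ^ 10)) ≤ N ^ 4 := by
    refine Nat.le_of_mul_le_mul_right (?_ : _ * N ^ 2 ≤ _ * N ^ 2) hN2
    calc 4 * (2 ^ 68 * (T * (2500 * b * (5001 * A)) * L ^ 10)) * N ^ 2 =
          (4 * 2 ^ 68 * 2500 * 5001) * ((b * (T * N ^ 2)) * (A * L ^ 10)) := by ring
      _ ≤ (4 * 2 ^ 68 * 2500 * 5001) * ((b ^ 2 * ((5 * (r + N ^ 2)) * (g + N ^ 2))) *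
            ((252 * (M * L)) * L ^ 10)) := by
          apply Nat.mul_le_mul_left
          refine Nat.mul_le_mul ?_ (Nat.mul_le_mul_right _ hA)
          exact Nat.mul_le_mul hb2 (Nat.mul_le_mul hT5 (by omega))
      _ = (4 * 2 ^ 68 * 2500 * 5001 * 5 * 252) *
            (M * b ^ 2 * ((r + N ^ 2) * (g + N ^ 2)) * L ^ 11) := by ring
      _ ≤ (4 * 2 ^ 68 * 2500 * 5001 * 5 * 252) * X := by
          rw [hX]
          exact Nat.mul_le_mul_left _ (Nat.mul_le_mul_left _ hL2)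
      _ ≤ 2 ^ 180 * X := Nat.mul_le_mul_right _ (by norm_num)
      _ ≤ N ^ 6 := hcon
      _ = N ^ 4 * N ^ 2 := by ring
  have p3 : 4 * (2 ^ 68 * (T * L * L ^ 10)) ≤ N ^ 4 := by
    refine Nat.le_of_mul_le_mul_right (?_ : _ * N ^ 2 ≤ _ * N ^ 2) hN2
    calc 4 * (2 ^ 68 * (T * L * L ^ 10)) * N ^ 2 =
          (4 * 2 ^ 68) * ((1 * (T * N ^ 2)) * L ^ 11) := by ring
      _ ≤ (4 * 2 ^ 68) * (((M * b ^ 2) * ((5 * (r + N ^ 2)) * (g + N ^ 2))) * L ^ 21) := by
          apply Nat.mul_le_mul_left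
          refine Nat.mul_le_mul ?_ hL2
          refine Nat.mul_le_mul ?_ (Nat.mul_le_mul hT5 (by omega))
          have : 1 ≤ b ^ 2 := by nlinarith
          nlinarith
      _ = (4 * 2 ^ 68 * 5) * X := by rw [hX]; ring
      _ ≤ 2 ^ 180 * X := Nat.mul_le_mul_right _ (by norm_num)
      _ ≤ N ^ 6 := hcon
      _ = N ^ 4 * N ^ 2 := by ring
  have p2 : 4 * (2 ^ 68 * (T * (2500 * b * s) * L ^ 10)) ≤ N ^ 4 := by
    have h1 : (4 * (2 ^ 68 * (T * (2500 * b * s) * L ^ 10))) ^ 2 ≤ (N ^ 4) ^ 2 := by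
      calc (4 * (2 ^ 68 * (T * (2500 * b * s) * L ^ 10))) ^ 2 =
            (4 * 2 ^ 68 * 2500) ^ 2 * (b ^ 2 * (T * (s ^ 2 * T)) * L ^ 20) := by ring
        _ ≤ (4 * 2 ^ 68 * 2500) ^ 2 * (b ^ 2 * ((5 * (r + N ^ 2)) *
              (20 * N ^ 2 * ((252 * (M * L)) * (g + N ^ 2)))) * L ^ 20) := by
            apply Nat.mul_le_mul_left
            apply Nat.mul_le_mul_right
            apply Nat.mul_le_mul_left
            refine Nat.mul_le_mul hT5 (hs.trans ?_)
            exact Nat.mul_le_mul (Nat.mul_le_mul_left _ haN) (Nat.mul_le_mul hA (by omega))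
        _ = ((4 * 2 ^ 68 * 2500) ^ 2 * 5 * 20 * 252) * X * N ^ 2 := by rw [hX]; ring
        _ ≤ 2 ^ 180 * X * N ^ 2 := by
            apply Nat.mul_le_mul_right
            exact Nat.mul_le_mul_right _ (by norm_num)
        _ ≤ N ^ 6 * N ^ 2 := Nat.mul_le_mul_right _ hcon
        _ = (N ^ 4) ^ 2 := by ring
    exact (Nat.pow_le_pow_iff_left (by norm_num)).1 h1
  have h4 : 4 * (2 ^ 68 * (T * (2500 * b * q + L) * L ^ 10)) =
      4 * (2 ^ 68 * (T * (2500 * b * (5001 * A)) * L ^ 10)) +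
      4 * (2 ^ 68 * (T * (2500 * b * s) * L ^ 10)) + 4 * (2 ^ 68 * (T * L * L ^ 10)) := by
    rw [hq]; ring
  omega

/-- **Random circuits for all distances.** -/
theorem apsp_universal : ∃ c : ℕ, 0 < c ∧ ∀ᶠ N : ℕ in Filter.atTop, ∀ (b r g M d : ℕ), 1 ≤ b →
    1 ≤ M → 4 * (Nat.log 2 g + 1) * g ≤ M * d ^ 2 →
    c * (M * b ^ 2 * ((r + N ^ 2) * (g + N ^ 2)) * (Nat.log 2 N) ^ 21) ≤ N ^ 6 →
    ∀ (R : Type) [Fintype R] (α : R → Type) [∀ i, Fintype (α i)]
    (C : (i : R) → Net (Fin N × Fin N) (Fin N × Fin N) (α i)) (inp : (i : R) → ℕ∞ → α i)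
    (dec : (i : R) → α i → ℕ∞),
      (∀ i, Fintype.card (α i) ≤ 2 ^ b ∧ (C i).reads ≤ r ∧ (C i).size ≤ g) →
      (∀ w : Graph N, (∀ p, w p = 1 ∨ w p = ⊤) →
        Nat.card R < 2 * Nat.card {i : R // NetDist (C i) (inp i) (dec i) w}) →
      ∃ i, Universal (gateGraph (C i)) M d := by
  classical
  refine ⟨2 ^ 180, by positivity, ?_⟩
  filter_upwards [Filter.eventually_ge_atTop (2 ^ 64)] with N hN b r g M d hb hM hd hcon R _ α _ C
    inp dec hσ hP
  by_contra hno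
  push Not at hno
  have hN0 : 0 < N := lt_of_lt_of_le (by positivity) hN
  have hlog : 64 ≤ Nat.log 2 N := Nat.le_log_of_pow_le (by norm_num) hN
  obtain ⟨L, hL⟩ : ∃ L, L = Nat.log 2 N := ⟨_, rfl⟩
  rw [← hL] at hcon hlog
  -- the logarithm of the size
  have hg6 : g < N ^ 6 := by
    have h1 : 1 ≤ M * b ^ 2 := Nat.mul_pos (by omega) (by positivity)
    have h2 : 0 < r + N ^ 2 := by positivity
    have h3 : 0 < L ^ 21 := by positivity
    calc g < g + N ^ 2 := by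
          have : 0 < N ^ 2 := by positivity
          omega
      _ = 1 * (1 * (g + N ^ 2)) * 1 := by ring
      _ ≤ (M * b ^ 2) * ((r + N ^ 2) * (g + N ^ 2)) * L ^ 21 :=
          Nat.mul_le_mul (Nat.mul_le_mul h1 (Nat.mul_le_mul_right _ h2)) h3
      _ ≤ 2 ^ 180 * (M * b ^ 2 * ((r + N ^ 2) * (g + N ^ 2)) * L ^ 21) :=
          Nat.le_mul_of_pos_left _ (by positivity)
      _ ≤ N ^ 6 := hcon
  obtain ⟨t, ht⟩ : ∃ t, t = Nat.log 2 g + 1 := ⟨_, rfl⟩
  rw [← ht] at hd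
  have htL : t ≤ 7 * L := by
    have h1 : N < 2 ^ (L + 1) := by rw [hL]; exact Nat.lt_pow_succ_log_self (by norm_num) _
    have h2 : g < 2 ^ (6 * (L + 1)) := by
      calc g < N ^ 6 := hg6
        _ ≤ (2 ^ (L + 1)) ^ 6 := Nat.pow_le_pow_left h1.le 6
        _ = 2 ^ (6 * (L + 1)) := by rw [← pow_mul]; congr 1; ring
    have h3 : Nat.log 2 g < 6 * (L + 1) := Nat.log_lt_of_lt_pow' (by omega) h2
    omega
  obtain ⟨A, hA⟩ : ∃ A, A = 36 * (M * t) := ⟨_, rfl⟩
  have hA0 : 0 < A := by rw [hA]; have : 0 < M * t := Nat.mul_pos (by omega) (by omega); omega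
  have hA1 : A ≤ 252 * (M * L) := by
    rw [hA]
    calc 36 * (M * t) ≤ 36 * (M * (7 * L)) := Nat.mul_le_mul_left _ (Nat.mul_le_mul_left _ htL)
      _ = 252 * (M * L) := by ring
  have hgt : g ≤ 2 ^ t := by
    rw [ht]
    exact (Nat.lt_pow_succ_log_self (by norm_num) _).le
  obtain ⟨T, hT⟩ : ∃ T, T = 5 * r + N ^ 2 := ⟨_, rfl⟩
  have hT0 : 0 < T := by rw [hT]; positivity
  obtain ⟨s, hs⟩ : ∃ s, s = Nat.sqrt (20 * base N * (A * g) / T) := ⟨_, rfl⟩
  have hs2 : s ^ 2 * T ≤ 20 * base N * (A * g) := by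
    have h1 : s ^ 2 ≤ 20 * base N * (A * g) / T := by
      rw [hs, sq]; exact Nat.sqrt_le _
    exact (Nat.mul_le_mul_right _ h1).trans (Nat.div_mul_le_self _ _)
  have hcon2 := numbers hN0 (by omega : 1 ≤ L) (base_le hN0) hb hM hA1 hT hs2 rfl hcon
  rw [hL] at hcon2 hlog
  obtain ⟨c, m, ℓ, K, e, he, hdet⟩ := apsp_det3 (S := 2500 * b * (5001 * A + s) + Nat.log 2 N)
    (T := T) hlog (by omega) (by omega) hcon2
  set X := Jx c (2 ^ ℓ) → Fin (2 ^ m)
  have h1 : ∀ i : R, 2 * Nat.card {x : X // NetDist (C i) (inp i) (dec i) (graph K e x)} ≤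
      Nat.card X := by
    intro i
    obtain ⟨hi1, hi2, hi3⟩ := hσ i
    have hsep := separators_of_not_universal (G := gateGraph (C i)) (g := g) (by omega : 0 < M)
      (by omega : 0 < t) (by rw [Fintype.card_fin]; exact hi3) hgt hd (hno i)
    rw [← hA] at hsep
    have hd := divided_of_sep (C i) hA0 hsep hi2 hi3 (base_pos N) hT0 (by omega) hs
    obtain ⟨t, ht⟩ : ∃ t, 2 * (t + 1) = 5000 * (5001 * A + s) :=
      ⟨2500 * (5001 * A + s) - 1, by omega⟩
    rw [← ht] at hd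
    refine hdet (α i) (C i) (inp i) (dec i) t b hd hi1 ?_
    have h2 : t + 1 = 2500 * (5001 * A + s) := by omega
    rw [h2]
    apply Nat.add_le_add_right
    apply le_of_eq
    ring
  have h2 : ∀ x : X, Nat.card R < 2 * Nat.card {i : R // NetDist (C i) (inp i) (dec i)
      (graph K e x)} := fun x => hP _ fun p => graph_eq K e x p
  have h3 : ∑ x : X, Nat.card {i : R // NetDist (C i) (inp i) (dec i) (graph K e x)} =
      ∑ i : R, Nat.card {x : X // NetDist (C i) (inp i) (dec i) (graph K e x)} := by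
    simp only [Nat.card_eq_fintype_card, Fintype.card_subtype, Finset.card_filter]
    exact sum_comm
  have h4 : ∑ _x : X, Nat.card R <
      ∑ x : X, 2 * Nat.card {i : R // NetDist (C i) (inp i) (dec i) (graph K e x)} := by
    apply sum_lt_sum_of_nonempty
    · exact ⟨fun _ => ⟨0, by positivity⟩, mem_univ _⟩
    · intro x _
      exact h2 x
  have h5 : 2 * ∑ i : R, Nat.card {x : X // NetDist (C i) (inp i) (dec i) (graph K e x)} ≤
      Nat.card R * Fintype.card X := by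
    rw [mul_sum]
    calc _ ≤ ∑ _i : R, Fintype.card X := by
          apply sum_le_sum
          intro i _
          have := h1 i
          rwa [Nat.card_eq_fintype_card (α := X)] at this
      _ = _ := by rw [sum_const, card_univ, smul_eq_mul, Nat.card_eq_fintype_card (α := R)]
  rw [← mul_sum, h3] at h4
  rw [sum_const, card_univ, smul_eq_mul] at h4
  rw [mul_comm] at h4
  omega

end Pool.Agent.U514.MU
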