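import Mathlib
import Pool.Agent.U514.MU.Apsp

/-!
# All-pairs shortest paths: exponents
-/

set_option autoImplicit false

open Finset

namespace Pool.Agent.U514.MU

open Pool.Agent.Y631.Tr
open Pool.Agent.H537R2.Apsp (Graph)
open Pool.Agent.U514.PD (gateGraph log_small reads_le_of_arity)

lemma floor_ge_half {x : ℝ} (hx : 1 ≤ x) : x / 2 ≤ (⌊x⌋₊ : ℝ) := by
  have h1 : x < ⌊x⌋₊ + 1 := Nat.lt_floor_add_one x
  have h2 : (1 : ℝ) ≤ ⌊x⌋₊ := by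
    exact_mod_cast (Nat.le_floor (by exact_mod_cast hx) : 1 ≤ ⌊x⌋₊)
  linarith

/-- **The graph of the gates of a truly subcubic circuit is universal.** -/
theorem apsp_minors (c₀ : ℕ) (δ ε : ℝ) (hε : 0 < ε) (hεδ : ε ≤ δ) (hδ : δ ≤ 1) :
    ∀ᶠ N : ℕ in Filter.atTop,
    ∀ (α : Type) [Fintype α] (C : Net (Fin N × Fin N) (Fin N × Fin N) α) (inp : ℕ∞ → α)
      (dec : α → ℕ∞), Fintype.card α ≤ N ^ c₀ → (∀ g, C.arity g ≤ c₀) →
      (∀ w : Graph N, (∀ p, w p = 1 ∨ w p = ⊤) → NetDist C inp dec w) →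
      (C.size : ℝ) ≤ (N : ℝ) ^ (3 - δ) →
      ∀ (W : Type) [Fintype W] (H : SimpleGraph W),
        (Fintype.card W : ℝ) ≤ (N : ℝ) ^ (2 * δ - ε) →
        (H.edgeSet.ncard : ℝ) ≤ (N : ℝ) ^ (2 * δ - ε) →
        HasMinor (gateGraph C) H ⌊(N : ℝ) ^ (3 * (1 - δ) / 2 + ε)⌋₊ := by
  obtain ⟨c, -, hc⟩ := apsp_universal
  filter_upwards [hc, log_small (c * 4 * ((c₀ + 1) ^ 2) * (c₀ + 1)) 23 ε hε,
    log_small 96 1 ε hε, Filter.eventually_ge_atTop 1] with N h1 h2 h2' hN α _ C inp dec hα hκ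
    hC hs W _ H hW hE
  have hN1 : (1 : ℝ) ≤ N := by exact_mod_cast hN
  have hN0 : (0 : ℝ) < N := by linarith
  obtain ⟨L, hL⟩ : ∃ L, L = Nat.log 2 N := ⟨_, rfl⟩
  rw [← hL] at h1 h2 h2'
  have hNL : N ≤ 2 ^ (L + 1) := by
    rw [hL]; exact (Nat.lt_pow_succ_log_self (by norm_num) N).le
  have hb : Fintype.card α ≤ 2 ^ ((c₀ + 1) * (L + 1)) := by
    refine hα.trans ?_
    calc N ^ c₀ ≤ (2 ^ (L + 1)) ^ c₀ := Nat.pow_le_pow_left hNL _
      _ = 2 ^ ((L + 1) * c₀) := by rw [pow_mul]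
      _ ≤ _ := Nat.pow_le_pow_right (by norm_num) (by nlinarith)
  obtain ⟨M, hM⟩ : ∃ M, M = ⌊(N : ℝ) ^ (2 * δ - ε)⌋₊ := ⟨_, rfl⟩
  obtain ⟨d, hd⟩ : ∃ d, d = ⌊(N : ℝ) ^ (3 * (1 - δ) / 2 + ε)⌋₊ := ⟨_, rfl⟩
  have hM1 : (1 : ℝ) ≤ (N : ℝ) ^ (2 * δ - ε) := Real.one_le_rpow hN1 (by linarith)
  have hd1 : (1 : ℝ) ≤ (N : ℝ) ^ (3 * (1 - δ) / 2 + ε) := Real.one_le_rpow hN1 (by nlinarith)
  have hM2 : (N : ℝ) ^ (2 * δ - ε) / 2 ≤ M := by rw [hM]; exact floor_ge_half hM1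
  have hM3 : (M : ℝ) ≤ (N : ℝ) ^ (2 * δ - ε) := by rw [hM]; exact Nat.floor_le (by positivity)
  have hMpos : 1 ≤ M := by rw [hM]; exact Nat.le_floor (by exact_mod_cast hM1)
  have hd2 : (N : ℝ) ^ (3 * (1 - δ) / 2 + ε) / 2 ≤ d := by rw [hd]; exact floor_ge_half hd1
  -- the depth
  have hlog : Nat.log 2 C.size + 1 ≤ 3 * (L + 1) := by
    have h3 : C.size ≤ N ^ 3 := by
      have : (C.size : ℝ) ≤ (N : ℝ) ^ 3 := by
        refine hs.trans ?_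
        rw [← Real.rpow_natCast (N : ℝ) 3]
        apply Real.rpow_le_rpow_of_exponent_le hN1
        push_cast
        linarith
      exact_mod_cast this
    have h4 : C.size < 2 ^ (3 * (L + 1)) := by
      calc C.size ≤ N ^ 3 := h3
        _ < (2 ^ (L + 1)) ^ 3 := by
          apply Nat.pow_lt_pow_left _ (by norm_num)
          rw [hL]
          exact Nat.lt_pow_succ_log_self (by norm_num) N
        _ = 2 ^ (3 * (L + 1)) := by rw [← pow_mul]; congr 1; ring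
    have h5 : Nat.log 2 C.size < 3 * (L + 1) := Nat.log_lt_of_lt_pow' (by omega) h4
    omega
  have hdep : 4 * (Nat.log 2 C.size + 1) * C.size ≤ M * d ^ 2 := by
    have h3 : (4 * (3 * ((L : ℝ) + 1)) * C.size) ≤ M * (d : ℝ) ^ 2 := by
      have e1 : (N : ℝ) ^ (2 * δ - ε) / 2 * ((N : ℝ) ^ (3 * (1 - δ) / 2 + ε) / 2) ^ 2 =
          (N : ℝ) ^ (3 - δ + ε) / 8 := by
        have e2 : (N : ℝ) ^ (3 - δ + ε) = (N : ℝ) ^ (2 * δ - ε) *
            ((N : ℝ) ^ (3 * (1 - δ) / 2 + ε)) ^ 2 := by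
          rw [← Real.rpow_natCast ((N : ℝ) ^ (3 * (1 - δ) / 2 + ε)) 2, ← Real.rpow_mul hN0.le,
            ← Real.rpow_add hN0]
          congr 1
          push_cast
          ring
        rw [e2]
        ring
      have e3 : (N : ℝ) ^ (3 - δ + ε) = (N : ℝ) ^ ε * (N : ℝ) ^ (3 - δ) := by
        rw [← Real.rpow_add hN0]; congr 1; ring
      calc (4 * (3 * ((L : ℝ) + 1)) * C.size) ≤ 4 * (3 * ((L : ℝ) + 1)) * (N : ℝ) ^ (3 - δ) :=
            mul_le_mul_of_nonneg_left hs (by positivity)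
        _ = (96 * ((L : ℝ) + 1) ^ 1) * (N : ℝ) ^ (3 - δ) / 8 := by ring
        _ ≤ (N : ℝ) ^ ε * (N : ℝ) ^ (3 - δ) / 8 := by
            apply div_le_div_of_nonneg_right _ (by norm_num)
            exact mul_le_mul_of_nonneg_right h2' (by positivity)
        _ = (N : ℝ) ^ (2 * δ - ε) / 2 * ((N : ℝ) ^ (3 * (1 - δ) / 2 + ε) / 2) ^ 2 := by
            rw [e1, e3]
        _ ≤ M * (d : ℝ) ^ 2 := by
            apply mul_le_mul hM2 _ (by positivity) (by positivity)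
            exact pow_le_pow_left₀ (by positivity) hd2 2
    have h4 : 4 * (3 * (L + 1)) * C.size ≤ M * d ^ 2 := by exact_mod_cast h3
    refine le_trans ?_ h4
    exact Nat.mul_le_mul_right _ (Nat.mul_le_mul_left _ hlog)
  -- the product
  have hprod : c * (M * ((c₀ + 1) * (L + 1)) ^ 2 * ((c₀ * C.size + N ^ 2) * (C.size + N ^ 2)) *
      L ^ 21) ≤ N ^ 6 := by
    have h5 : (N : ℝ) ^ 2 ≤ (N : ℝ) ^ (3 - δ) := by
      rw [← Real.rpow_natCast (N : ℝ) 2]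
      apply Real.rpow_le_rpow_of_exponent_le hN1
      push_cast
      linarith
    have h6 : ((c₀ : ℝ) * C.size + N ^ 2) ≤ (c₀ + 1) * (2 * (N : ℝ) ^ (3 - δ)) := by
      have : (c₀ : ℝ) * C.size ≤ c₀ * (N : ℝ) ^ (3 - δ) :=
        mul_le_mul_of_nonneg_left hs (Nat.cast_nonneg _)
      have h7 : (0 : ℝ) ≤ c₀ * (N : ℝ) ^ (3 - δ) := by positivity
      nlinarith
    have h8 : ((C.size : ℝ) + N ^ 2) ≤ 2 * (N : ℝ) ^ (3 - δ) := by linarith
    have h9 : (c : ℝ) * (M * ((c₀ + 1) * ((L : ℝ) + 1)) ^ 2 *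
        ((c₀ * C.size + N ^ 2) * (C.size + N ^ 2)) * (L : ℝ) ^ 21) ≤ (N : ℝ) ^ 6 := by
      have e1 : ((L : ℝ)) ^ 21 ≤ (L + 1) ^ 21 :=
        pow_le_pow_left₀ (by positivity) (by linarith) 21
      calc (c : ℝ) * (M * ((c₀ + 1) * ((L : ℝ) + 1)) ^ 2 *
            ((c₀ * C.size + N ^ 2) * (C.size + N ^ 2)) * (L : ℝ) ^ 21)
          ≤ c * ((N : ℝ) ^ (2 * δ - ε) * ((c₀ + 1) * ((L : ℝ) + 1)) ^ 2 *
            (((c₀ + 1) * (2 * (N : ℝ) ^ (3 - δ))) * (2 * (N : ℝ) ^ (3 - δ))) *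
              ((L : ℝ) + 1) ^ 21) := by
            gcongr
        _ = (c * 4 * ((c₀ + 1) ^ 2) * (c₀ + 1) * ((L : ℝ) + 1) ^ 23) *
            ((N : ℝ) ^ (2 * δ - ε) * ((N : ℝ) ^ (3 - δ) * (N : ℝ) ^ (3 - δ))) := by ring
        _ ≤ (N : ℝ) ^ ε * ((N : ℝ) ^ (2 * δ - ε) * ((N : ℝ) ^ (3 - δ) * (N : ℝ) ^ (3 - δ))) :=
            mul_le_mul_of_nonneg_right h2 (by positivity)
        _ = (N : ℝ) ^ 6 := by
            rw [← Real.rpow_add hN0, ← Real.rpow_add hN0, ← Real.rpow_add hN0,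
              ← Real.rpow_natCast (N : ℝ) 6]
            congr 1
            push_cast
            ring
    exact_mod_cast h9
  obtain ⟨-, h3⟩ := h1 ((c₀ + 1) * (L + 1)) (c₀ * C.size) C.size M d
    (Nat.mul_pos (Nat.succ_pos _) (Nat.succ_pos _)) hMpos hdep hprod Unit
    (fun _ => α) (fun _ => C) (fun _ => inp) (fun _ => dec)
    (fun _ => ⟨hb, reads_le_of_arity C c₀ hκ, le_refl _⟩)
    (fun w hw => by
      have : Nonempty {i : Unit // NetDist C inp dec w} := ⟨⟨(), hC w hw⟩⟩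
      have h4 : 0 < Nat.card {i : Unit // NetDist C inp dec w} := Nat.card_pos
      have h5 : Nat.card Unit = 1 := by simp
      omega)
  rw [← hd]
  refine h3 W H ?_ ?_
  · rw [hM]
    exact Nat.le_floor hW
  · rw [hM]
    exact Nat.le_floor hE

end Pool.Agent.U514.MU
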