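import Mathlib
import Pool.Agent.U514.MU.ApspCor
import Pool.Agent.U514.PD.Mv

/-!
# Matrix-vector products over a finite field: universality of the graph of gates
-/

set_option autoImplicit false

open Finset

namespace Pool.Agent.U514.MU

open Pool.Agent.Y631.Tr
open Pool.Agent.W896.MO (mv LG bad_count avg_exists)
open Pool.Agent.U514.PD (gateGraph Divided mv_net3 log_small reads_le_of_arity)

/-- The division of a circuit with small separators, with `w` reads in each piece. -/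
theorem divided_reads {ι ω α : Type} (C : Net ι ω α) {A r g w s : ℕ} (hA : 0 < A)
    (h : HasSeparators (gateGraph C) A) (hr : C.reads ≤ r) (hg : C.size ≤ g) (hw : 0 < w)
    (hs : s = Nat.sqrt (A * g * w / (r + w))) :
    ∃ ℓ, Divided C (5000 * (5001 * A + s)) w ℓ ∧ ℓ * w ≤ 20 * (r + w) := by
  obtain ⟨L, h1, h2, h3⟩ := division hA h C.readsAt (5001 * A + s) w (by omega) hw
  refine ⟨L.length, ⟨L, ?_, h2, le_refl _⟩, ?_⟩
  · intro p hp
    obtain ⟨h4, h5, h6⟩ := h1 p hp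
    refine ⟨?_, h5, h6⟩
    intro h g hhg hg
    have hne : h ≠ g := by
      obtain ⟨a, ha⟩ := hhg
      exact (C.acyclic g a h ha).ne
    exact h4 g hg h ((SimpleGraph.fromRel_adj _ _ _).2 ⟨hne.symm, Or.inr hhg⟩)
  obtain ⟨q, hq⟩ : ∃ q, q = 5001 * A + s := ⟨_, rfl⟩
  rw [← hq] at h3
  rw [Fintype.card_fin] at h3
  have hreads : C.reads = ∑ g, C.readsAt g := rfl
  rw [← hreads] at h3
  have hrw : 0 < r + w := by omega
  have h4 : A * g * w ≤ q ^ 2 * (r + w) := by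
    have h5 : A * g * w / (r + w) < (s + 1) * (s + 1) := by
      rw [hs]; exact Nat.lt_succ_sqrt _
    have h6 : A * g * w < (s + 1) * (s + 1) * (r + w) := (Nat.div_lt_iff_lt_mul hrw).1 h5
    refine h6.le.trans (Nat.mul_le_mul_right _ ?_)
    rw [sq]
    exact Nat.mul_le_mul (by omega) (by omega)
  have hq0 : 0 < q := by omega
  have h6 : (L.length * w) * q ^ 2 ≤ (20 * (r + w)) * q ^ 2 := by
    calc (L.length * w) * q ^ 2 = L.length * (q ^ 2 * w) := by ring
      _ ≤ 10 * (w * (A * C.size) + q ^ 2 * C.reads) + q ^ 2 * w := h3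
      _ ≤ 10 * (w * (A * g) + q ^ 2 * r) + q ^ 2 * w := by
          apply Nat.add_le_add_right
          apply Nat.mul_le_mul_left
          exact Nat.add_le_add (Nat.mul_le_mul_left _ (Nat.mul_le_mul_left _ hg))
            (Nat.mul_le_mul_left _ hr)
      _ = 10 * (A * g * w) + 10 * (q ^ 2 * r) + q ^ 2 * w := by ring
      _ ≤ 10 * (q ^ 2 * (r + w)) + 10 * (q ^ 2 * r) + q ^ 2 * w := by omega
      _ = (20 * r + 11 * w) * q ^ 2 := by ring
      _ ≤ _ := Nat.mul_le_mul_right _ (by omega)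
  exact Nat.le_of_mul_le_mul_right h6 (by positivity)

/-- the arithmetic -/
theorem mv_numbers {n m r w g s π ℓ A : ℕ} (hA : 1 ≤ A) (hw : w = n / 32) (hn : 32 ≤ n)
    (hs : s ^ 2 * (r + w) ≤ A * g * w) (hℓ : ℓ * w ≤ 20 * (r + w))
    (h : n * m ≤ 16 * (π + 5000 * (5001 * A + s) + 1) * ℓ) :
    n ^ 3 * m ^ 2 ≤ 2 ^ 57 * (A * ((π + 1) * ((r + n) * (g + n * m)))) := by
  have hn64 : n ≤ 64 * w := by omega
  have hwn : 32 * w ≤ n := by omega
  obtain ⟨P, hP⟩ : ∃ P, P = π + 5000 * (5001 * A) + 1 := ⟨_, rfl⟩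
  have h1 : n ^ 2 * m ≤ 20480 * ((P + 5000 * s) * (r + n)) := by
    calc n ^ 2 * m = n * (n * m) := by ring
      _ ≤ (64 * w) * (16 * (π + 5000 * (5001 * A + s) + 1) * ℓ) := Nat.mul_le_mul hn64 h
      _ = 1024 * ((P + 5000 * s) * (ℓ * w)) := by rw [hP]; ring
      _ ≤ 1024 * ((P + 5000 * s) * (20 * (r + w))) := by
          apply Nat.mul_le_mul_left
          exact Nat.mul_le_mul_left _ hℓ
      _ = 20480 * ((P + 5000 * s) * (r + w)) := by ring
      _ ≤ _ := by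
          apply Nat.mul_le_mul_left
          apply Nat.mul_le_mul_left
          omega
  have hPle : P ≤ 25005001 * (A * (π + 1)) := by
    rw [hP]
    have h2 : π ≤ A * π := Nat.le_mul_of_pos_left _ hA
    nlinarith
  rcases le_total (5000 * s) P with h2 | h2
  · calc n ^ 3 * m ^ 2 = (n ^ 2 * m) * (n * m) := by ring
      _ ≤ (20480 * ((P + P) * (r + n))) * (g + n * m) := by
          refine Nat.mul_le_mul (h1.trans ?_) (Nat.le_add_left _ _)
          apply Nat.mul_le_mul_left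
          apply Nat.mul_le_mul_right
          omega
      _ ≤ (20480 * ((25005001 * (A * (π + 1)) + 25005001 * (A * (π + 1))) * (r + n))) *
            (g + n * m) := by
          gcongr
      _ = (20480 * 2 * 25005001) * (A * ((π + 1) * ((r + n) * (g + n * m)))) := by ring
      _ ≤ _ := Nat.mul_le_mul_right _ (by norm_num)
  · have h3 : n ^ 2 * m ≤ 204800000 * (s * (r + n)) := by
      calc n ^ 2 * m ≤ 20480 * ((P + 5000 * s) * (r + n)) := h1
        _ ≤ 20480 * ((5000 * s + 5000 * s) * (r + n)) := by gcongr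
        _ = _ := by ring
    have h4 : s ^ 2 * (r + n) ≤ 2 * (A * g * n) := by
      calc s ^ 2 * (r + n) ≤ s ^ 2 * (64 * (r + w)) := by
            apply Nat.mul_le_mul_left
            omega
        _ = 64 * (s ^ 2 * (r + w)) := by ring
        _ ≤ 64 * (A * g * w) := Nat.mul_le_mul_left _ hs
        _ = 2 * (A * g * (32 * w)) := by ring
        _ ≤ _ := by
            apply Nat.mul_le_mul_left
            exact Nat.mul_le_mul_left _ hwn
    have h5 : (n ^ 3 * m ^ 2) * n ≤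
        (2 ^ 57 * (A * ((π + 1) * ((r + n) * (g + n * m))))) * n := by
      calc (n ^ 3 * m ^ 2) * n = (n ^ 2 * m) ^ 2 := by ring
        _ ≤ (204800000 * (s * (r + n))) ^ 2 := Nat.pow_le_pow_left h3 2
        _ = 204800000 ^ 2 * ((s ^ 2 * (r + n)) * (r + n)) := by ring
        _ ≤ 204800000 ^ 2 * ((2 * (A * g * n)) * (r + n)) := by gcongr
        _ = (204800000 ^ 2 * 2) * (A * (1 * ((r + n) * g))) * n := by ring
        _ ≤ (2 ^ 57) * (A * ((π + 1) * ((r + n) * (g + n * m)))) * n := by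
            apply Nat.mul_le_mul_right
            refine Nat.mul_le_mul (by norm_num) ?_
            apply Nat.mul_le_mul_left
            refine Nat.mul_le_mul (by omega) ?_
            exact Nat.mul_le_mul_left _ (Nat.le_add_right _ _)
        _ = _ := by ring
    exact Nat.le_of_mul_le_mul_right h5 (by omega)

variable {F : Type} [Field F] [Fintype F]

/-- **Random circuits.** -/
theorem mv_universal [DecidableEq F] {n : ℕ} (hn : 32 ≤ n) (M : Fin n → Fin n → F) (hM : LG M) {m r g π μ d : ℕ}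
    (hμ : 1 ≤ μ) (hd : 4 * (Nat.log 2 g + 1) * g ≤ μ * d ^ 2)
    (hbig : 2 ^ 63 * (μ * (Nat.log 2 g + 1) * ((π + 1) * ((r + n) * (g + n * m)))) <
      n ^ 3 * m ^ 2) {R : Type} [Fintype R] [Nonempty R]
    (C : R → Net (Fin m × Fin n) (Fin m × Fin n) F)
    (hC : ∀ i, (C i).reads ≤ r ∧ (C i).size ≤ g)
    (hc : Nat.card R * Fintype.card F ^ (n * m) ≤ Fintype.card F ^ π *
        Nat.card {u : R × (Fin m × Fin n → F) // (C u.1).Computes u.2 (mv M u.2)}) :
    ∃ i, Universal (gateGraph (C i)) μ d := by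
  classical
  by_contra hno
  push Not at hno
  obtain ⟨i, hi⟩ := avg_exists (fun i v => (C i).Computes v (mv M v)) (Fintype.card F ^ π) (by
    rw [Nat.card_eq_fintype_card (α := Fin m × Fin n → F), Fintype.card_fun, Fintype.card_prod,
      Fintype.card_fin, Fintype.card_fin, mul_comm m n]
    exact hc)
  rw [Nat.card_eq_fintype_card (α := Fin m × Fin n → F), Fintype.card_fun, Fintype.card_prod,
      Fintype.card_fin, Fintype.card_fin, mul_comm m n] at hi
  obtain ⟨hi1, hi2⟩ := hC i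
  obtain ⟨w, hw⟩ : ∃ w, w = n / 32 := ⟨_, rfl⟩
  have hw0 : 0 < w := by omega
  obtain ⟨t, ht⟩ : ∃ t, t = Nat.log 2 g + 1 := ⟨_, rfl⟩
  rw [← ht] at hd hbig
  obtain ⟨A, hA⟩ : ∃ A, A = 36 * (μ * t) := ⟨_, rfl⟩
  have hA0 : 0 < A := by
    rw [hA]
    have : 0 < μ * t := Nat.mul_pos (by omega) (by omega)
    omega
  have hsep := separators_of_not_universal (G := gateGraph (C i)) (g := g) (by omega : 0 < μ)
    (by omega : 0 < t) (by rw [Fintype.card_fin]; exact hi2)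
    (by rw [ht]; exact (Nat.lt_pow_succ_log_self (by norm_num) _).le) hd (hno i)
  rw [← hA] at hsep
  obtain ⟨ℓ, hdv, hℓ⟩ := divided_reads (C i) hA0 hsep hi1 hi2 hw0 rfl
  have h1 := mv_net3 M hM (C i) (5000 * (5001 * A + Nat.sqrt (A * g * w / (r + w)))) ℓ π
    (by rw [← hw]; exact hdv) hi
  have h3 : n ^ 3 * m ^ 2 ≤ 2 ^ 57 * (A * ((π + 1) * ((r + n) * (g + n * m)))) := by
    refine mv_numbers hA0 hw hn ?_ hℓ h1
    have h2 : Nat.sqrt (A * g * w / (r + w)) ^ 2 ≤ A * g * w / (r + w) := by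
      rw [sq]; exact Nat.sqrt_le _
    exact (Nat.mul_le_mul_right _ h2).trans (Nat.div_mul_le_self _ _)
  have h4 : 2 ^ 57 * (A * ((π + 1) * ((r + n) * (g + n * m)))) ≤
      2 ^ 63 * (μ * t * ((π + 1) * ((r + n) * (g + n * m)))) := by
    rw [hA]
    calc 2 ^ 57 * (36 * (μ * t) * ((π + 1) * ((r + n) * (g + n * m)))) =
          (2 ^ 57 * 36) * (μ * t * ((π + 1) * ((r + n) * (g + n * m)))) := by ring
      _ ≤ _ := Nat.mul_le_mul_right _ (by norm_num)
  omega

/-- **The graph of the gates of circuits with less than `n ^ 2.5` gates.** -/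
theorem mv_minors [DecidableEq F] (κ : ℕ) (δ ε : ℝ) (hε : 0 < ε) (hεδ : ε ≤ δ) (hδ : δ ≤ 1 / 2) :
    ∀ᶠ n : ℕ in Filter.atTop, ∀ M : Fin n → Fin n → F, LG M →
    ∀ C : Net (Fin n × Fin n) (Fin n × Fin n) F, (∀ g, C.arity g ≤ κ) →
      (∀ v, C.Computes v (mv M v)) → (C.size : ℝ) ≤ (n : ℝ) ^ (5 / 2 - δ) →
      ∀ (W : Type) [Fintype W] (H : SimpleGraph W),
        (Fintype.card W : ℝ) ≤ (n : ℝ) ^ (2 * δ - ε) →
        (H.edgeSet.ncard : ℝ) ≤ (n : ℝ) ^ (2 * δ - ε) →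
        HasMinor (gateGraph C) H ⌊(n : ℝ) ^ ((5 - 6 * δ) / 4 + ε)⌋₊ := by
  filter_upwards [log_small (2 ^ 63 * 3 * 4 * (κ + 1) + 1) 1 (ε / 2) (by positivity),
    log_small 96 1 ε hε, Filter.eventually_ge_atTop 32,
    ((tendsto_rpow_atTop (show (0 : ℝ) < ε / 2 by positivity)).comp
      tendsto_natCast_atTop_atTop).eventually_gt_atTop 1]
    with n h2 h2' hn hgt M hM C hκ hC hs W _ H hW hE
  have hn1 : (1 : ℝ) ≤ n := by exact_mod_cast (by omega : 1 ≤ n)
  have hn0 : (0 : ℝ) < n := by linarith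
  obtain ⟨L, hL⟩ : ∃ L, L = Nat.log 2 n := ⟨_, rfl⟩
  rw [← hL] at h2 h2'
  obtain ⟨μ, hμ⟩ : ∃ μ, μ = ⌊(n : ℝ) ^ (2 * δ - ε)⌋₊ := ⟨_, rfl⟩
  obtain ⟨d, hd⟩ : ∃ d, d = ⌊(n : ℝ) ^ ((5 - 6 * δ) / 4 + ε)⌋₊ := ⟨_, rfl⟩
  have hM1 : (1 : ℝ) ≤ (n : ℝ) ^ (2 * δ - ε) := Real.one_le_rpow hn1 (by linarith)
  have hd1 : (1 : ℝ) ≤ (n : ℝ) ^ ((5 - 6 * δ) / 4 + ε) := Real.one_le_rpow hn1 (by linarith)
  have hM2 : (n : ℝ) ^ (2 * δ - ε) / 2 ≤ μ := by rw [hμ]; exact floor_ge_half hM1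
  have hM3 : (μ : ℝ) ≤ (n : ℝ) ^ (2 * δ - ε) := by rw [hμ]; exact Nat.floor_le (by positivity)
  have hMpos : 1 ≤ μ := by rw [hμ]; exact Nat.le_floor (by exact_mod_cast hM1)
  have hd2 : (n : ℝ) ^ ((5 - 6 * δ) / 4 + ε) / 2 ≤ d := by rw [hd]; exact floor_ge_half hd1
  have hlog : Nat.log 2 C.size + 1 ≤ 3 * (L + 1) := by
    have h3 : C.size ≤ n ^ 3 := by
      have : (C.size : ℝ) ≤ (n : ℝ) ^ 3 := by
        refine hs.trans ?_
        rw [← Real.rpow_natCast (n : ℝ) 3]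
        apply Real.rpow_le_rpow_of_exponent_le hn1
        push_cast
        linarith
      exact_mod_cast this
    have h4 : C.size < 2 ^ (3 * (L + 1)) := by
      calc C.size ≤ n ^ 3 := h3
        _ < (2 ^ (L + 1)) ^ 3 := by
          apply Nat.pow_lt_pow_left _ (by norm_num)
          rw [hL]
          exact Nat.lt_pow_succ_log_self (by norm_num) n
        _ = 2 ^ (3 * (L + 1)) := by rw [← pow_mul]; congr 1; ring
    have h5 : Nat.log 2 C.size < 3 * (L + 1) := Nat.log_lt_of_lt_pow' (by omega) h4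
    omega
  have hdep : 4 * (Nat.log 2 C.size + 1) * C.size ≤ μ * d ^ 2 := by
    have h3 : (4 * (3 * ((L : ℝ) + 1)) * C.size) ≤ μ * (d : ℝ) ^ 2 := by
      have e2 : (n : ℝ) ^ ε * (n : ℝ) ^ (5 / 2 - δ) = (n : ℝ) ^ (2 * δ - ε) *
          ((n : ℝ) ^ ((5 - 6 * δ) / 4 + ε)) ^ 2 := by
        rw [← Real.rpow_natCast ((n : ℝ) ^ ((5 - 6 * δ) / 4 + ε)) 2, ← Real.rpow_mul hn0.le,
          ← Real.rpow_add hn0, ← Real.rpow_add hn0]
        congr 1
        push_cast
        ring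
      calc (4 * (3 * ((L : ℝ) + 1)) * C.size) ≤ 4 * (3 * ((L : ℝ) + 1)) * (n : ℝ) ^ (5 / 2 - δ) :=
            mul_le_mul_of_nonneg_left hs (by positivity)
        _ = (96 * ((L : ℝ) + 1) ^ 1) * (n : ℝ) ^ (5 / 2 - δ) / 8 := by ring
        _ ≤ (n : ℝ) ^ ε * (n : ℝ) ^ (5 / 2 - δ) / 8 := by
            apply div_le_div_of_nonneg_right _ (by norm_num)
            exact mul_le_mul_of_nonneg_right h2' (by positivity)
        _ = (n : ℝ) ^ (2 * δ - ε) / 2 * ((n : ℝ) ^ ((5 - 6 * δ) / 4 + ε) / 2) ^ 2 := by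
            rw [e2]; ring
        _ ≤ μ * (d : ℝ) ^ 2 := by
            apply mul_le_mul hM2 _ (by positivity) (by positivity)
            exact pow_le_pow_left₀ (by positivity) hd2 2
    have h4 : 4 * (3 * (L + 1)) * C.size ≤ μ * d ^ 2 := by exact_mod_cast h3
    refine le_trans ?_ h4
    exact Nat.mul_le_mul_right _ (Nat.mul_le_mul_left _ hlog)
  have hprod : 2 ^ 63 * (μ * (Nat.log 2 C.size + 1) *
      ((0 + 1) * ((κ * C.size + n) * (C.size + n * n)))) < n ^ 3 * n ^ 2 := by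
    have h5 : (n : ℝ) ^ 2 ≤ (n : ℝ) ^ (5 / 2 - δ) := by
      rw [← Real.rpow_natCast (n : ℝ) 2]
      apply Real.rpow_le_rpow_of_exponent_le hn1
      push_cast
      linarith
    have h5' : (n : ℝ) ≤ (n : ℝ) ^ 2 := by nlinarith
    have h6 : ((κ : ℝ) * C.size + n) ≤ (κ + 1) * (2 * (n : ℝ) ^ (5 / 2 - δ)) := by
      have : (κ : ℝ) * C.size ≤ κ * (n : ℝ) ^ (5 / 2 - δ) :=
        mul_le_mul_of_nonneg_left hs (Nat.cast_nonneg _)
      have h7 : (0 : ℝ) ≤ κ * (n : ℝ) ^ (5 / 2 - δ) := by positivity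
      nlinarith
    have h8 : ((C.size : ℝ) + n * n) ≤ 2 * (n : ℝ) ^ (5 / 2 - δ) := by nlinarith
    have hlog' : ((Nat.log 2 C.size : ℝ) + 1) ≤ 3 * ((L : ℝ) + 1) := by exact_mod_cast hlog
    have h9 : (2 : ℝ) ^ 63 * (μ * ((Nat.log 2 C.size : ℝ) + 1) *
      ((0 + 1) * ((κ * C.size + n) * (C.size + n * n)))) < (n : ℝ) ^ 3 * (n : ℝ) ^ 2 := by
      calc (2 : ℝ) ^ 63 * (μ * ((Nat.log 2 C.size : ℝ) + 1) *
          ((0 + 1) * ((κ * C.size + n) * (C.size + n * n))))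
          ≤ (2 : ℝ) ^ 63 * ((n : ℝ) ^ (2 * δ - ε) * (3 * ((L : ℝ) + 1)) *
          ((0 + 1) * (((κ + 1) * (2 * (n : ℝ) ^ (5 / 2 - δ))) *
            (2 * (n : ℝ) ^ (5 / 2 - δ))))) := by
            gcongr
        _ = (2 ^ 63 * 3 * 4 * (κ + 1) * ((L : ℝ) + 1) ^ 1) *
            ((n : ℝ) ^ (2 * δ - ε) * ((n : ℝ) ^ (5 / 2 - δ) * (n : ℝ) ^ (5 / 2 - δ))) := by ring
        _ ≤ (n : ℝ) ^ (ε / 2) *
            ((n : ℝ) ^ (2 * δ - ε) * ((n : ℝ) ^ (5 / 2 - δ) * (n : ℝ) ^ (5 / 2 - δ))) := by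
            apply mul_le_mul_of_nonneg_right _ (by positivity)
            refine le_trans ?_ h2
            have : (0 : ℝ) ≤ (L + 1) ^ 1 := by positivity
            nlinarith
        _ < (n : ℝ) ^ (ε / 2) * ((n : ℝ) ^ (ε / 2) *
            ((n : ℝ) ^ (2 * δ - ε) * ((n : ℝ) ^ (5 / 2 - δ) * (n : ℝ) ^ (5 / 2 - δ)))) := by
            apply mul_lt_mul_of_pos_left _ (by positivity)
            exact lt_mul_of_one_lt_left (by positivity) hgt
        _ = (n : ℝ) ^ 3 * (n : ℝ) ^ 2 := by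
            rw [← Real.rpow_add hn0, ← Real.rpow_add hn0, ← Real.rpow_add hn0,
              ← Real.rpow_add hn0, ← pow_add, ← Real.rpow_natCast (n : ℝ) (3 + 2)]
            congr 1
            push_cast
            ring
    exact_mod_cast h9
  obtain ⟨-, h3⟩ := mv_universal hn M hM hMpos hdep hprod (R := Unit) (fun _ => C)
    (fun _ => ⟨reads_le_of_arity C κ hκ, le_refl _⟩) (by
      have h4 : Nat.card {u : Unit × (Fin n × Fin n → F) // C.Computes u.2 (mv M u.2)} =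
          Fintype.card F ^ (n * n) := by
        rw [Nat.card_congr (Equiv.subtypeUnivEquiv
          (p := fun u : Unit × (Fin n × Fin n → F) => C.Computes u.2 (mv M u.2))
          (fun u => hC u.2)), Nat.card_prod,
          Nat.card_eq_fintype_card (α := Fin n × Fin n → F), Fintype.card_fun,
          Fintype.card_prod, Fintype.card_fin]
        simp
      rw [h4]
      simp)
  rw [← hd]
  refine h3 W H ?_ ?_
  · rw [hμ]
    exact Nat.le_floor hW
  · rw [hμ]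
    exact Nat.le_floor hE

/-- **The theorem.** -/
theorem mv_main (F : Type) [Field F] [Fintype F] :
    ∃ Bad : (n : ℕ) → Set (Fin n → Fin n → F),
      (∀ n, Nat.card (Bad n) * 2 ^ (n / 4) ≤ Fintype.card F ^ (n * n)) ∧
      (∀ n, 32 ≤ n → ∀ M, M ∉ Bad n → ∀ (m r g π μ d : ℕ) (R : Type) [Fintype R] [Nonempty R]
        (C : R → Net (Fin m × Fin n) (Fin m × Fin n) F), 1 ≤ μ →
        4 * (Nat.log 2 g + 1) * g ≤ μ * d ^ 2 →
        2 ^ 63 * (μ * (Nat.log 2 g + 1) * ((π + 1) * ((r + n) * (g + n * m)))) <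
          n ^ 3 * m ^ 2 →
        (∀ i, (C i).reads ≤ r ∧ (C i).size ≤ g) →
        Nat.card R * Fintype.card F ^ (n * m) ≤ Fintype.card F ^ π *
          Nat.card {u : R × (Fin m × Fin n → F) // (C u.1).Computes u.2 (mv M u.2)} →
        ∃ i, Universal (gateGraph (C i)) μ d) ∧
      ∀ (κ : ℕ) (δ ε : ℝ), 0 < ε → ε ≤ δ → δ ≤ 1 / 2 → ∀ᶠ n : ℕ in Filter.atTop,
        ∀ M, M ∉ Bad n → ∀ C : Net (Fin n × Fin n) (Fin n × Fin n) F, (∀ g, C.arity g ≤ κ) →
        (∀ v, C.Computes v (mv M v)) → (C.size : ℝ) ≤ (n : ℝ) ^ (5 / 2 - δ) →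
        ∀ (W : Type) [Fintype W] (H : SimpleGraph W),
          (Fintype.card W : ℝ) ≤ (n : ℝ) ^ (2 * δ - ε) →
          (H.edgeSet.ncard : ℝ) ≤ (n : ℝ) ^ (2 * δ - ε) →
          HasMinor (gateGraph C) H ⌊(n : ℝ) ^ ((5 - 6 * δ) / 4 + ε)⌋₊ := by
  classical
  refine ⟨fun n => if 32 ≤ n then {M | ¬ LG M} else ∅, ?_, ?_, ?_⟩
  · intro n
    by_cases hn : 32 ≤ n
    · simp only [hn, if_true]
      have h1 := bad_count (F := F) (n := n) (by omega)
      refine le_trans (le_of_eq ?_) h1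
      congr 1
      rw [Nat.card_eq_fintype_card]
      rw [Fintype.card_ofFinset]
      congr 1
    · simp only [hn, if_false]
      rw [Nat.card_eq_zero.2 (Or.inl inferInstance)]
      simp
  · intro n hn M hM m r g π μ d R _ _ C hμ hd hbig hC hc
    refine mv_universal hn M ?_ hμ hd hbig C hC hc
    by_contra h1
    exact hM (by simp only [hn, if_true]; exact h1)
  · intro κ δ ε hε hεδ hδ
    filter_upwards [mv_minors (F := F) κ δ ε hε hεδ hδ, Filter.eventually_ge_atTop 32] with n h hn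
    intro M hM
    apply h M
    by_contra h1
    exact hM (by simp only [hn, if_true]; exact h1)

end Pool.Agent.U514.MU
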