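import Mathlib
import Pool.Agent.U514.MU.Sqrt
import Pool.Agent.U514.PD.Tw

/-!
# Small separators give a small treewidth
-/

set_option autoImplicit false

namespace Pool.Agent.U514.MU

open Finset
open Pool.Agent.U514.PD (Elim Elim.glue)
open Pool.Agent.Y631.Wc (WCirc)

variable {V : Type*} [Fintype V] {G : SimpleGraph V}

open Classical in
theorem exists_elim {P : ℕ} (hsep : ∀ (U : Finset V) (w : V → ℕ), ∃ S M₁ M₂,
      Separation G U w S M₁ M₂ ∧ S.card ≤ P) :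
    ∀ (n : ℕ) (I B : Finset V), I.card = n → Disjoint I B →
      (∀ v ∈ I, ∀ u, G.Adj v u → u ∈ I ∨ u ∈ B) → B.card ≤ 3 * P + 3 →
      ∃ rk bag, Elim G I B (4 * P + 4) rk bag := by
  intro n
  induction n using Nat.strong_induction_on with
  | _ n ih =>
  intro I B hn hIB hcl hB
  rcases I.eq_empty_or_nonempty with h0 | ⟨a, ha⟩
  · subst h0
    exact ⟨fun _ => 0, fun _ => ∅, by constructor <;> simp⟩
  obtain ⟨S, M₁, M₂, ⟨hSs, hM1', hM2', hd1, hd2, hM12, hcov, hne, hX1, hX2⟩, hSc⟩ :=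
    hsep (I ∪ B) (fun v => if v ∈ B then 1 else 0)
  have hM1 : M₁ ⊆ (I ∪ B) \ S := fun v hv =>
    mem_sdiff.2 ⟨hM1' hv, fun h => disjoint_left.1 hd1 hv h⟩
  have hM2 : M₂ ⊆ (I ∪ B) \ S := fun v hv =>
    mem_sdiff.2 ⟨hM2' hv, fun h => disjoint_left.1 hd2 hv h⟩
  have hcl1 : ∀ v ∈ M₁, v ∈ I → ∀ u, G.Adj v u → u ∈ M₁ ∨ u ∈ S := by
    intro v hv hvI u hvu
    rcases hcov u (mem_union.2 (hcl v hvI u hvu)) with h | h | h
    · exact Or.inr h
    · exact Or.inl h
    · exact absurd hvu (hne v hv u h)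
  have hcl2 : ∀ v ∈ M₂, v ∈ I → ∀ u, G.Adj v u → u ∈ M₂ ∨ u ∈ S := by
    intro v hv hvI u hvu
    rcases hcov u (mem_union.2 (hcl v hvI u hvu)) with h | h | h
    · exact Or.inr h
    · exact absurd hvu.symm (hne u h v hv)
    · exact Or.inl h
  have hnot : ∀ v ∈ B, v ∉ I := fun v hv hv' => disjoint_left.1 hIB hv' hv
  have hsum : ∀ M : Finset V, ∑ v ∈ M, (if v ∈ B then 1 else 0) = (M ∩ B).card := by
    intro M
    rw [← Finset.sum_filter, sum_const, smul_eq_mul, mul_one, filter_mem_eq_inter]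
  simp only [hsum] at hX1 hX2
  have hBB : ((I ∪ B) ∩ B) = B := by
    ext v
    rw [mem_inter, mem_union]
    tauto
  rw [hBB] at hX1 hX2
  obtain ⟨S', hS'⟩ : ∃ S', S' = insert a S := ⟨_, rfl⟩
  have hS'c : S'.card ≤ P + 1 := by
    rw [hS']
    exact (card_insert_le _ _).trans (by omega)
  have haS : a ∈ S' := by rw [hS']; exact mem_insert_self _ _
  have hSS : S ⊆ S' := by rw [hS']; exact subset_insert _ _
  have hS's : S' ⊆ I ∪ B := by
    rw [hS']
    exact insert_subset (mem_union_left _ ha) hSs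
  have key : ∀ M : Finset V, M ⊆ (I ∪ B) \ S → 3 * (M ∩ B).card ≤ 2 * B.card →
      (∀ v ∈ M, v ∈ I → ∀ u, G.Adj v u → u ∈ M ∨ u ∈ S) →
      (∀ v ∈ (M ∩ I) \ S', ∀ u, G.Adj v u → u ∈ (M ∩ I) \ S' ∨ u ∈ (M ∩ B) ∪ S') ∧
      ∃ rk bag, Elim G ((M ∩ I) \ S') ((M ∩ B) ∪ S') (4 * P + 4) rk bag := by
    intro M hM hMB hMcl
    have hc : ∀ v ∈ (M ∩ I) \ S', ∀ u, G.Adj v u → u ∈ (M ∩ I) \ S' ∨ u ∈ (M ∩ B) ∪ S' := by
      intro v hv u hvu
      rw [mem_sdiff, mem_inter] at hv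
      by_cases huS : u ∈ S'
      · exact Or.inr (mem_union_right _ huS)
      · rcases hMcl v hv.1.1 hv.1.2 u hvu with h | h
        · rcases mem_union.1 (mem_sdiff.1 (hM h)).1 with h3 | h3
          · exact Or.inl (mem_sdiff.2 ⟨mem_inter.2 ⟨h, h3⟩, huS⟩)
          · exact Or.inr (mem_union_left _ (mem_inter.2 ⟨h, h3⟩))
        · exact absurd (hSS h) huS
    refine ⟨hc, ih ((M ∩ I) \ S').card ?_ _ _ rfl ?_ hc ?_⟩
    · rw [← hn]
      apply card_lt_card
      refine ⟨fun v hv => (mem_inter.1 (mem_sdiff.1 hv).1).2, fun h => ?_⟩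
      exact (mem_sdiff.1 (h ha)).2 haS
    · rw [disjoint_left]
      intro v hv hv'
      rw [mem_sdiff, mem_inter] at hv
      rcases mem_union.1 hv' with h | h
      · exact hnot v (mem_inter.1 h).2 hv.1.2
      · exact hv.2 h
    · refine (card_union_le _ _).trans ?_
      omega
  obtain ⟨hc1, r₁, b₁, he1⟩ := key M₁ hM1 hX1 hcl1
  obtain ⟨hc2, r₂, b₂, he2⟩ := key M₂ hM2 hX2 hcl2
  refine Elim.glue (S := S') hIB hS's ?_ ?_ ?_ ?_ ?_ ?_ hc1 hc2 (by omega) he1 he2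
  · intro v hv
    by_cases hvS : v ∈ S'
    · exact Or.inl hvS
    · rcases hcov v (mem_union_left _ hv) with h | h | h
      · exact Or.inl (hSS h)
      · exact Or.inr (Or.inl (mem_sdiff.2 ⟨mem_inter.2 ⟨h, hv⟩, hvS⟩))
      · exact Or.inr (Or.inr (mem_sdiff.2 ⟨mem_inter.2 ⟨h, hv⟩, hvS⟩))
  · intro v hv
    rw [mem_sdiff, mem_inter] at hv
    exact mem_sdiff.2 ⟨hv.1.2, hv.2⟩
  · intro v hv
    rw [mem_sdiff, mem_inter] at hv
    exact mem_sdiff.2 ⟨hv.1.2, hv.2⟩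
  · rw [disjoint_left]
    intro v hv hv'
    exact disjoint_left.1 hM12 (mem_inter.1 (mem_sdiff.1 hv).1).1
      (mem_inter.1 (mem_sdiff.1 hv').1).1
  · intro v hv
    rcases mem_union.1 hv with h | h
    · exact mem_union_left _ (mem_inter.1 h).2
    · exact mem_union_right _ h
  · intro v hv
    rcases mem_union.1 hv with h | h
    · exact mem_union_left _ (mem_inter.1 h).2
    · exact mem_union_right _ h

open Pool.Agent.U514.PD.W (gateGraph tree_of_elim)

/-- **The treewidth of a circuit whose graph of gates is not universal.** -/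
theorem treewidth_of_not_universal {ι X Z : Type} (C : WCirc ι X Z) {M d : ℕ} (hM : 0 < M)
    (hd : 4 * (Nat.log 2 C.size + 1) * C.size ≤ M * d ^ 2)
    (hno : ¬ Universal (gateGraph C) M d) :
    ∃ θ, C.TreewidthLE θ ∧
      θ + 1 ≤ 24 * (Nat.sqrt (M * (Nat.log 2 C.size + 1) * C.size) + 1) + 4 := by
  classical
  obtain ⟨t, ht⟩ : ∃ t, t = Nat.log 2 C.size + 1 := ⟨_, rfl⟩
  rw [← ht] at hd ⊢
  have hs : 0 < C.size := by
    have := C.out.2
    omega
  have hV : C.size ≤ 2 ^ t := by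
    rw [ht]
    exact (Nat.lt_pow_succ_log_self (by norm_num) _).le
  have hsep := separators_of_not_universal (G := gateGraph C) (g := C.size) hM (by omega : 0 < t)
    (by rw [Fintype.card_fin]) hV hd hno
  obtain ⟨P, hP⟩ : ∃ P, P = 6 * (Nat.sqrt (M * t * C.size) + 1) := ⟨_, rfl⟩
  obtain ⟨rk, bag, he⟩ := exists_elim (G := gateGraph C) (P := P) (by
    intro U w
    obtain ⟨S, M₁, M₂, h1, h2⟩ := hsep U w
    refine ⟨S, M₁, M₂, h1, ?_⟩
    have h3 : U.card ≤ C.size := by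
      have := card_le_univ U
      rwa [Fintype.card_fin] at this
    have h4 : M * t * C.size < (Nat.sqrt (M * t * C.size) + 1) * (Nat.sqrt (M * t * C.size) + 1) :=
      Nat.lt_succ_sqrt _
    have h5 : S.card ^ 2 ≤ P ^ 2 := by
      calc S.card ^ 2 ≤ 36 * (M * t) * U.card := h2
        _ ≤ 36 * (M * t) * C.size := Nat.mul_le_mul_left _ h3
        _ = 36 * (M * t * C.size) := by ring
        _ ≤ 36 * ((Nat.sqrt (M * t * C.size) + 1) * (Nat.sqrt (M * t * C.size) + 1)) :=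
            Nat.mul_le_mul_left _ h4.le
        _ = P ^ 2 := by rw [hP]; ring
    exact (Nat.pow_le_pow_iff_left (by norm_num)).1 h5) _ univ ∅ rfl (by simp)
    (by simp) (by simp)
  obtain ⟨T, par, nb, t1, t2, t3, t4⟩ := tree_of_elim hs he
  refine ⟨4 * P + 3, ⟨T, par, nb, t1, fun i => ?_, t3, fun a b hab => ?_⟩, ?_⟩
  · have := t2 i
    omega
  · have hne : a ≠ b := by
      obtain ⟨c, hc⟩ := hab
      have := C.acyclic b c
      rw [hc] at this
      exact this.ne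
    exact t4 a b ((SimpleGraph.fromRel_adj _ _ _).2 ⟨hne, Or.inl hab⟩)
  · rw [hP]
    omega

end Pool.Agent.U514.MU
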