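import Mathlib
import Pool.Agent.U514.MU.Elim
import Pool.Agent.U514.MU.ApspCor
import Pool.Agent.U514.PD.WNum

/-!
# Word circuits: universality of the graph of gates
-/

set_option autoImplicit false

open Finset

namespace Pool.Agent.U514.MU

open Pool.Agent.Y631.Wc (WCirc)
open Pool.Agent.U514.PD.W (gateGraph quadratic tw_mono)
open Pool.Agent.U514.PD (log_small)

variable {ι X Z : Type}

/-- **The quadratic bound** for circuits which are not universal. -/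
theorem w_quadratic {m r κ b q M d : ℕ} (C : WCirc ι X Z) (hr : 1 ≤ r) (hb : 1 ≤ b) (hq : 2 ≤ q)
    (hM : 1 ≤ M) (hd : 4 * (Nat.log 2 C.size + 1) * C.size ≤ M * d ^ 2)
    (hno : ¬ Universal (gateGraph C) M d)
    (h : ∀ θ, C.TreewidthLE θ →
      q ^ (m / 2 ^ (24 * r + 1)) ≤ (q ^ b) ^ (10000 * r ^ 2 * (κ + 1) * (θ + 1)) + 1) :
    m ^ 2 ≤ 2 ^ (48 * r + 46) * (r ^ 4 * (κ + 1) ^ 2 * b ^ 2 *
      (M * (Nat.log 2 C.size + 1) * C.size)) := by
  obtain ⟨θ, h1, h2⟩ := treewidth_of_not_universal C (by omega) hd hno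
  have hs : 0 < C.size := by
    have := C.out.2
    omega
  have h3 : 0 < M * (Nat.log 2 C.size + 1) * C.size :=
    Nat.mul_pos (Nat.mul_pos (by omega) (Nat.succ_pos _)) hs
  refine quadratic hr h3 hb hq ?_ (h θ h1)
  omega

/-- **Few gates give a small treewidth or all minors.** -/
theorem w_minors (η ε : ℝ) (hη : 0 ≤ η) (hε : 0 < ε) (hηε : η + ε ≤ 1) :
    ∀ᶠ m : ℕ in Filter.atTop, ∀ {ι X Z : Type} (C : WCirc ι X Z),
      (C.size : ℝ) ≤ (m : ℝ) ^ (1 + η) →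
      (∀ θ, C.TreewidthLE θ → ¬ (θ : ℝ) ≤ (m : ℝ) ^ (1 - ε / 6)) →
      ∀ (W : Type) [Fintype W] (H : SimpleGraph W),
        (Fintype.card W : ℝ) ≤ (m : ℝ) ^ (1 - η - ε) →
        (H.edgeSet.ncard : ℝ) ≤ (m : ℝ) ^ (1 - η - ε) →
        HasMinor (gateGraph C) H ⌊(m : ℝ) ^ (η + ε)⌋₊ := by
  filter_upwards [log_small (4 * 52 ^ 2) 1 (2 * ε / 3) (by positivity),
    log_small 96 1 ε hε, Filter.eventually_ge_atTop 1]
    with m h2 h2' hm ι X Z C hs hC W _ H hW hE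
  have hm1 : (1 : ℝ) ≤ m := by exact_mod_cast hm
  have hm0 : (0 : ℝ) < m := by linarith
  obtain ⟨L, hL⟩ : ∃ L, L = Nat.log 2 m := ⟨_, rfl⟩
  rw [← hL] at h2 h2'
  obtain ⟨M, hM⟩ : ∃ M, M = ⌊(m : ℝ) ^ (1 - η - ε)⌋₊ := ⟨_, rfl⟩
  obtain ⟨d, hd⟩ : ∃ d, d = ⌊(m : ℝ) ^ (η + ε)⌋₊ := ⟨_, rfl⟩
  have hM1 : (1 : ℝ) ≤ (m : ℝ) ^ (1 - η - ε) := Real.one_le_rpow hm1 (by linarith)
  have hd1 : (1 : ℝ) ≤ (m : ℝ) ^ (η + ε) := Real.one_le_rpow hm1 (by linarith)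
  have hM2 : (m : ℝ) ^ (1 - η - ε) / 2 ≤ M := by rw [hM]; exact floor_ge_half hM1
  have hM3 : (M : ℝ) ≤ (m : ℝ) ^ (1 - η - ε) := by rw [hM]; exact Nat.floor_le (by positivity)
  have hMpos : 1 ≤ M := by rw [hM]; exact Nat.le_floor (by exact_mod_cast hM1)
  have hd2 : (m : ℝ) ^ (η + ε) / 2 ≤ d := by rw [hd]; exact floor_ge_half hd1
  have hs0 : 0 < C.size := by
    have := C.out.2
    omega
  have hlog : Nat.log 2 C.size + 1 ≤ 2 * (L + 1) := by
    have h3 : C.size ≤ m ^ 2 := by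
      have : (C.size : ℝ) ≤ (m : ℝ) ^ 2 := by
        refine hs.trans ?_
        rw [← Real.rpow_natCast (m : ℝ) 2]
        apply Real.rpow_le_rpow_of_exponent_le hm1
        push_cast
        linarith
      exact_mod_cast this
    have h4 : C.size < 2 ^ (2 * (L + 1)) := by
      calc C.size ≤ m ^ 2 := h3
        _ < (2 ^ (L + 1)) ^ 2 := by
          apply Nat.pow_lt_pow_left _ (by norm_num)
          rw [hL]
          exact Nat.lt_pow_succ_log_self (by norm_num) m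
        _ = 2 ^ (2 * (L + 1)) := by rw [← pow_mul]; congr 1; ring
    have h5 : Nat.log 2 C.size < 2 * (L + 1) := Nat.log_lt_of_lt_pow' (by omega) h4
    omega
  have hlog' : ((Nat.log 2 C.size : ℝ) + 1) ≤ 2 * ((L : ℝ) + 1) := by exact_mod_cast hlog
  have hdep : 4 * (Nat.log 2 C.size + 1) * C.size ≤ M * d ^ 2 := by
    have h3 : (4 * ((Nat.log 2 C.size : ℝ) + 1) * C.size) ≤ M * (d : ℝ) ^ 2 := by
      have e2 : (m : ℝ) ^ ε * (m : ℝ) ^ (1 + η) = (m : ℝ) ^ (1 - η - ε) *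
          ((m : ℝ) ^ (η + ε)) ^ 2 := by
        rw [← Real.rpow_natCast ((m : ℝ) ^ (η + ε)) 2, ← Real.rpow_mul hm0.le,
          ← Real.rpow_add hm0, ← Real.rpow_add hm0]
        congr 1
        push_cast
        ring
      calc (4 * ((Nat.log 2 C.size : ℝ) + 1) * C.size)
          ≤ 4 * (2 * ((L : ℝ) + 1)) * (m : ℝ) ^ (1 + η) := by gcongr
        _ ≤ (96 * ((L : ℝ) + 1) ^ 1) * (m : ℝ) ^ (1 + η) / 8 := by
            have : (0 : ℝ) ≤ ((L : ℝ) + 1) * (m : ℝ) ^ (1 + η) := by positivity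
            nlinarith
        _ ≤ (m : ℝ) ^ ε * (m : ℝ) ^ (1 + η) / 8 := by
            apply div_le_div_of_nonneg_right _ (by norm_num)
            exact mul_le_mul_of_nonneg_right h2' (by positivity)
        _ = (m : ℝ) ^ (1 - η - ε) / 2 * ((m : ℝ) ^ (η + ε) / 2) ^ 2 := by
            rw [e2]; ring
        _ ≤ M * (d : ℝ) ^ 2 := by
            apply mul_le_mul hM2 _ (by positivity) (by positivity)
            exact pow_le_pow_left₀ (by positivity) hd2 2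
    exact_mod_cast h3
  rw [← hd]
  by_contra hno
  have hno' : ¬ Universal (gateGraph C) M d := by
    intro h
    refine hno (h W H ?_ ?_)
    · rw [hM]
      exact Nat.le_floor hW
    · rw [hM]
      exact Nat.le_floor hE
  obtain ⟨θ, h3, h4⟩ := treewidth_of_not_universal C (by omega) hdep hno'
  refine hC θ h3 ?_
  obtain ⟨u, hu⟩ : ∃ u, u = Nat.sqrt (M * (Nat.log 2 C.size + 1) * C.size) := ⟨_, rfl⟩
  rw [← hu] at h4
  have hu1 : 1 ≤ u := by
    rw [hu, Nat.le_sqrt]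
    exact Nat.mul_pos (Nat.mul_pos (by omega) (Nat.succ_pos _)) hs0
  have huu : u * u ≤ M * (Nat.log 2 C.size + 1) * C.size := by rw [hu]; exact Nat.sqrt_le _
  have hθ : (θ : ℝ) ≤ 52 * u := by
    have : θ ≤ 52 * u := by omega
    exact_mod_cast this
  have hθ2 : (θ : ℝ) ^ 2 ≤ ((m : ℝ) ^ (1 - ε / 6)) ^ 2 := by
    have huu' : (u : ℝ) ^ 2 ≤ M * ((Nat.log 2 C.size : ℝ) + 1) * C.size := by
      rw [sq]; exact_mod_cast huu
    calc (θ : ℝ) ^ 2 ≤ (52 * u) ^ 2 := pow_le_pow_left₀ (Nat.cast_nonneg _) hθ 2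
      _ = 52 ^ 2 * (u : ℝ) ^ 2 := by ring
      _ ≤ 52 ^ 2 * (M * ((Nat.log 2 C.size : ℝ) + 1) * C.size) := by
          apply mul_le_mul_of_nonneg_left huu' (by positivity)
      _ ≤ 52 ^ 2 * ((m : ℝ) ^ (1 - η - ε) * (2 * ((L : ℝ) + 1)) * (m : ℝ) ^ (1 + η)) := by
          gcongr
      _ ≤ (4 * 52 ^ 2 * ((L : ℝ) + 1) ^ 1) * ((m : ℝ) ^ (1 - η - ε) * (m : ℝ) ^ (1 + η)) := by
          have : (0 : ℝ) ≤ ((L : ℝ) + 1) * ((m : ℝ) ^ (1 - η - ε) * (m : ℝ) ^ (1 + η)) := by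
            positivity
          nlinarith
      _ ≤ (m : ℝ) ^ (2 * ε / 3) * ((m : ℝ) ^ (1 - η - ε) * (m : ℝ) ^ (1 + η)) :=
          mul_le_mul_of_nonneg_right h2 (by positivity)
      _ = ((m : ℝ) ^ (1 - ε / 6)) ^ 2 := by
          rw [← Real.rpow_natCast ((m : ℝ) ^ (1 - ε / 6)) 2, ← Real.rpow_mul hm0.le,
            ← Real.rpow_add hm0, ← Real.rpow_add hm0]
          congr 1
          push_cast
          ring
  exact le_of_sq_le_sq hθ2 (by positivity)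

end Pool.Agent.U514.MU
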